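import Pool.Agent.H664.FH.VarB
import Pool.Graph.R_pool_sql_team_seeded_1acbe0a2.Y562.SX.Ax

/-!
Project EX (helper664): exponential-algebraic closedness in dimension three.
Statements (interfaces), with complete proofs in the docstrings.
-/

set_option autoImplicit false

namespace Pool.Agent.H664.EX

open MvPolynomial Filter Topology Metric Pool.Agent.W996.EC Pool.Agent.Q72.EG Pool.Agent.H664.FH

/-- `f` is algebraic over the field `ℂ(A)` -/
abbrev Al {E : Type} [Field E] [Algebra ℂ E] (A : Set E) (f : E) : Prop :=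
  IsAlgebraic (IntermediateField.adjoin ℂ A) f

/-! ### Algebra -/

/-- JOB AXK. Ax's theorem for a derivation of a field of functions. Proof. From `Pool.Agent.Y562.SX.ax` (imported; derivations of `ℂ`): `K` has the cardinality of the
continuum (it is algebraic over a finitely generated extension of `ℂ`), so there is a ring isomorphism `φ : AlgebraicClosure K ≃+* ℂ`
(`IsAlgClosed.ringEquivOfCardinalEqOfCharEq`). `D` extends (uniquely) to a derivation of `AlgebraicClosure K` (separable algebraic extension; Mathlib, or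
the lemmas in Pool.Graph.R_seed8.TH813 (Rel1 and what it imports), or Pool.Graph.R_seed8.Y685), transport to `D₀ : Derivation ℚ ℂ ℂ`. The derivations of `ℂ` over `cst D₀` which kill the (images of the) `v j` kill
the image of `K` since its elements are algebraic over the field generated by constants and the `v j`. -/
def S_axK : Prop := ∀ (K : Type) [Field K] [Algebra ℂ K] (s : Finset K) (D : Derivation ℂ K K)
  (n m : ℕ) (x y : Fin n → K) (v : Fin m → K), (∀ f : K, Al (s : Set K) f) → 0 < n →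
  (∀ i, y i ≠ 0) → (∀ i, D (y i) = y i * D (x i)) →
  (∀ q : Fin n → ℚ, ∑ i, (q i : K) * D (x i) = 0 → q = 0) →
  (∀ f : K, Al ({c | D c = 0} ∪ Set.range v) f) → n + 1 ≤ m

/-- JOB DER. The derivation along the slices.
Proof. `K` is a separable algebraic extension of `ℂ(z, t)`, so there are derivations `∂₁, ∂₂` of `K` over `ℂ` with `∂₁ z = 1`, `∂₁ t = 0`, `∂₂ z = 0`, `∂₂ t = 1`.
`a = ∂₁ y / y` is not `1`: otherwise S_axK for `∂₁`, `n = 1`, `x = z`, `y`, `m = 1`, `v = z` (`t` is a constant of `∂₁`) would give `2 ≤ 1`. With `b = ∂₂ y / y` put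
`D = (b / (1 - a)) ∂₁ + ∂₂`. -/
def S_der : Prop := ∀ (K : Type) [Field K] [Algebra ℂ K] (z t y : K),
  AlgebraicIndependent ℂ ![z, t] → (∀ f : K, Al {z, t} f) → y ≠ 0 →
  ∃ D : Derivation ℂ K K, D t = 1 ∧ D y = y * D z

/-- the slices: `z, t` independent, `v, y` algebraic functions of `z, t`, `D` the derivation along the curves
`z = log y + const` with `D t = 1` -/
structure Sl (K : Type) [Field K] [Algebra ℂ K] where
  z : K
  t : K
  v : K
  y : K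
  ind : AlgebraicIndependent ℂ ![z, t]
  alg : ∀ f : K, Al {z, t} f
  y0 : y ≠ 0
  D : Derivation ℂ K K
  Dt : D t = 1
  Dy : D y = y * D z

/-- JOB NOEXP2. Proof (uses S_axK). Suppose `D c = j (D v) c`, `c ≠ 0`, `j ≠ 0`.
(a) If `D z, D v` are linearly independent over `ℚ`: S_axK for `x = (z, j v)`, `y = (y, c)`, `v = (z, t)` gives `3 ≤ 2`.
(b) Otherwise there are integers `(m₁, m₂) ≠ 0` with `D u = 0` for `u = m₁ z + m₂ v`; by hypothesis `u ∉ ℂ`. Then `u, t` are algebraically independent over `ℂ`: let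
`A(t, u) = 0`, `A` irreducible; `0 = D (A(t, u)) = A_T(t, u)`, so `A ∣ A_T`, `A_T = 0`, `A ∈ ℂ[U]` and `u ∈ ℂ`. As `K` has transcendence degree `2`, all elements of `K` are algebraic over
`ℂ(u, t)`, where `u` is a constant of `D`. If `D z ≠ 0`, S_axK with `n = 1`, `x = z`, `y = y`, `m = 1`, `v = t` gives `2 ≤ 1`. So `D z = 0`. If `D v ≠ 0`, S_axK with
`x = j v`, `y = c` gives `2 ≤ 1`. So `D z = D v = 0`, contradiction. -/
def S_noexp2 : Prop := ∀ (K : Type) [Field K] [Algebra ℂ K] (S : Sl K),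
  (∀ m₁ m₂ : ℤ, (m₁ ≠ 0 ∨ m₂ ≠ 0) → ∀ c : ℂ, (m₁ : K) * S.z + m₂ * S.v ≠ algebraMap ℂ K c) →
  ¬ (S.D S.z = 0 ∧ S.D S.v = 0) →
  ∀ c : K, c ≠ 0 → ∀ j : ℤ, j ≠ 0 → S.D c ≠ j * S.D S.v * c

/-- JOB DEGEN. Proof. The constants of `D` have transcendence degree at most one over `ℂ`: `t` is transcendental over the field of constants `C` of `D` (if `A(t) = 0`, `A` the minimal polynomial over
`C`, then `0 = D (A t) = A'(t)`), and `K` has transcendence degree `2`. `z, v, y` are constants (`D y = y D z = 0`), and `z` is transcendental over `ℂ`. -/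
def S_degen : Prop := ∀ (K : Type) [Field K] [Algebra ℂ K] (S : Sl K),
  S.D S.z = 0 → S.D S.v = 0 → Al {S.z} S.v ∧ Al {S.z} S.y

/-- JOB GP. Plane curves over a field of functions: the relations between `a, b` over `L` are the multiples of one polynomial.
Proof. `ker (L[A, B] → E)` is a prime ideal `𝔭`. It is not zero (`a` is algebraic over `L(b)`) and contains no nonzero element of `L[B]` (`b` transcendental). Let `G ∈ 𝔭` be irreducible
(`L[A, B]` is a UFD). All `f ∈ 𝔭` are multiples of `G`: otherwise `f`, `G` are coprime in `L[B][A]`, hence in `L(B)[A]` (Gauss's lemma; `G` has positive degree in `A`), so there are `α, β ∈ L[B][A]` with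
`0 ≠ α f + β G ∈ L[B]`, which is in `𝔭`. (You may also take the minimal polynomial of `a` over `L(b)`, cleared of denominators and primitive.)
`N` = support of `G` (exponents of `A`, `B`), `c e` its coefficients; there are two different exponents of `A` in `N`: otherwise `G = A^k g(B)`, so `a = 0` or `g(b) = 0`; the hypothesis `a ≠ 0` excludes this.
The ideal of relations between `ξ, a, b` in `MvPolynomial (σ ⊕ Fin 2) ℂ` is finitely generated by `f_1, …, f_r`; `f_i(ξ, A, B) = h_i G` with `h_i ∈ L[A, B]`. `Q` consists of the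
coefficients of `G` and of the `h_i`. The identities `f_i(ξ, A, B) = h_i G` between coefficients are polynomial relations between `ξ` and the elements of `Q`, so they hold at the point
`(p, q)`; hence `f_i(p, A°, B°) = 0` if `G°(A°, B°) = 0`, and all relations between `ξ, a, b` hold at `(p, A°, B°)`. -/
def S_gp : Prop := ∀ (E : Type) [Field E] [Algebra ℂ E] (L : IntermediateField ℂ E) (σ : Type)
  [Finite σ] (ξ : σ → E) (a b : E), (∀ s, ξ s ∈ L) → a ≠ 0 → Transcendental L b →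
  IsAlgebraic (IntermediateField.adjoin L {b}) a →
  ∃ (N : Finset (ℕ × ℕ)) (c : ℕ × ℕ → E) (Q : Finset E), (∀ k ∈ Q, k ∈ L) ∧
    (∀ e ∈ N, c e ≠ 0 ∧ c e ∈ Q) ∧ (∃ e ∈ N, ∃ e' ∈ N, e.1 ≠ e'.1) ∧
    ∀ (Q' : Finset E) (p : σ → ℂ) (q : E → ℂ) (A B : ℂ), Q ⊆ Q' →
      Sum.elim p (fun k : Q' => q k) ∈ Pt (Sum.elim ξ (fun k : Q' => (k : E))) →
      ∑ e ∈ N, q (c e) * A ^ e.1 * B ^ e.2 = 0 →
      Sum.elim p ![A, B] ∈ Pt (Sum.elim ξ ![a, b])

/-! ### Regions -/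

/-- the region of the `(z, t)` with `|z - i a| < a / 2`, `|t - R ζ| < R / 2` -/
def reg (a R : ℝ) (ζ : ℂ) : Set (Fin 2 → ℂ) :=
  {x | ‖x 0 - Complex.I * a‖ < a / 2 ∧ ‖x 1 - R * ζ‖ < R / 2}

/-- JOB BND. Growth on the regions.
Proof. Let `g = ∑_{j ≤ m} g_j(z) t^j ≠ 0` be a polynomial in `z, t`, `g_m ≠ 0`. On `reg a R ζ`: `a / 2 ≤ |z| ≤ 2 a ≤ 2 (log R)^2`, `R / 2 ≤ |t| ≤ 2 R`, `|g_m(z)| ≥ c > 0` for large `R` (`|z|` large), `|g_j(z)| ≤ C (log R)^C`,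
so `c' ≤ |g(z, t)| ≤ R^C` for large `R`. This is the second assertion. For the first, `f k ≠ 0` satisfies `∑_b A_b(z, t) (f k)^b = 0` with polynomials `A_b`, `A_0 ≠ 0` and not all others zero (the minimal polynomial,
cleared of denominators), let `A_N`, `N ≥ 1`, be the leading one. At points `(x, w)` of `Pt` the same relation holds for `w k`: `|w k| ≤ 1 + ∑_b |A_b| / |A_N|`, and with the relation for the inverse `1 / |w k| ≤ 1 + ∑_b |A_b| / |A_0|`. -/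
def S_bnd : Prop := ∀ (K : Type) [Field K] [Algebra ℂ K] (ζ : Fin 2 → K),
  AlgebraicIndependent ℂ ζ →
  (∀ (κ : Type) [Finite κ] (f : κ → K), (∀ k, Al (Set.range ζ) (f k)) → (∀ k, f k ≠ 0) →
    ∃ C R₀ : ℝ, ∀ R a : ℝ, R₀ ≤ R → Real.log R ≤ a → a ≤ Real.log R ^ 2 → ∀ ω : ℂ, ‖ω‖ = 1 →
      ∀ x ∈ reg a R ω, ∀ w : κ → ℂ, Sum.elim x w ∈ Pt (Sum.elim ζ f) →
        ∀ k, R ^ (-C) ≤ ‖w k‖ ∧ ‖w k‖ ≤ R ^ C) ∧
  ∀ H : MvPolynomial (Fin 2) ℂ, H ≠ 0 → ∃ R₀ : ℝ, ∀ R a : ℝ, R₀ ≤ R → Real.log R ≤ a →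
    a ≤ Real.log R ^ 2 → ∀ ω : ℂ, ‖ω‖ = 1 → ∀ x ∈ reg a R ω, eval x H ≠ 0

/-- the leading part (first with respect to `(t, v)`, then with respect to `z`) of `P(z, t, v)` at `t = 1`, `v = w` -/
noncomputable def leadAt (P : MvPolynomial (Fin 3) ℂ) (d J : ℕ) (w : ℂ) : ℂ :=
  ∑ m ∈ P.support with m 1 + m 2 = d ∧ m 0 = J, coeff m P * w ^ (m 2)

/-- `γ` is a root of the leading part of `P` -/
structure Root (P : MvPolynomial (Fin 3) ℂ) (d J : ℕ) (γ : ℂ) : Prop where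
  le : ∀ m ∈ P.support, m 1 + m 2 ≤ d
  leJ : ∀ m ∈ P.support, m 1 + m 2 = d → m 0 ≤ J
  ex : ∃ m ∈ P.support, m 1 + m 2 = d ∧ m 0 = J
  pos : 1 ≤ d
  root : leadAt P d J γ = 0

/-- JOB ROOTV. Proof. On `reg a R ω`, for `|w| ≤ |γ| + 1`: `P(z, t, t w) / (t^d z^J) = lead(w) + O(1/|z|) + O(|z|^C / |t|)`, where `lead = leadAt P d J` is a polynomial in `w`, not zero (by `ex`: the monomials in the
sum have different exponents `m 2`). Choose `0 < η < min δ 1` with `lead ≠ 0` on the circle `|w - γ| = η`, `|lead| ≥ m₀ > 0` there. For `R` large the difference is `< m₀ / 2` for `|w - γ| ≤ η`; so `P(z, t, t w) ≠ 0` on the circle, and it has a zero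
inside: otherwise by the minimum modulus principle its absolute value at `w = γ` would be at least the minimum on the circle, `≥ m₀ / 2`, but it is `< m₀ / 2` there as `lead(γ) = 0` (take the difference `< m₀/4`). -/
def S_rootv : Prop := ∀ (P : MvPolynomial (Fin 3) ℂ) (d J : ℕ) (γ : ℂ), Root P d J γ →
  ∀ δ : ℝ, 0 < δ → ∃ η R₀ : ℝ, 0 < η ∧ η < δ ∧ ∀ R a : ℝ, R₀ ≤ R → Real.log R ≤ a →
    a ≤ Real.log R ^ 2 → ∀ ω : ℂ, ‖ω‖ = 1 → ∀ x ∈ reg a R ω,
      (∀ w : ℂ, ‖w - γ‖ = η → eval ![x 0, x 1, x 1 * w] P ≠ 0) ∧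
      ∃ w : ℂ, ‖w - γ‖ < η ∧ eval ![x 0, x 1, x 1 * w] P = 0

/-- JOB SHEET. Points over regions. Proof. (1) and (2): `S_alg` (`Pool.Agent.Q166.EG.alg`) for `ζ` and `f` gives `Θ, H, G` (`Pt ζ` is everything by independence); existence: `Θ(t)` has positive degree for
`H(t) ≠ 0` (as in the proof of `S_good`, Pool/Agent/H935/FH/Good.lean); the sheets: `ROOT.main` on the convex set `U`, exactly as in Good.lean.
(3) `S_lift0` (proved in the library, see `Pool.Agent.Q72.EG.all_lift` in Q72/EG/All.lean) for `f k0` gives `A` and `H`: roots of `A(t)` lift. `P` is irreducible and `P(f k0, ζ) = 0`, where `f k0` is algebraic over `ℂ(ζ)` and `ζ` is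
independent, so `P` has positive degree in the variable `none`, is irreducible over `ℂ(ζ)` (Gauss), and divides `A` there: `g A = P B` with a nonzero polynomial `g` in the variables `some _`;
so if `P(w, t) = 0` and `g(t) ≠ 0` then `A(t)(w) = 0`. -/
def S_sheet : Prop := ∀ (m : ℕ) (K : Type) [Field K] [Algebra ℂ K] (ζ : Fin m → K) (κ : Type)
  [Finite κ] (f : κ → K), AlgebraicIndependent ℂ ζ → (∀ k, Al (Set.range ζ) (f k)) →
  ∃ H : MvPolynomial (Fin m) ℂ, H ≠ 0 ∧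
    (∀ t : Fin m → ℂ, eval t H ≠ 0 → ∃ q : κ → ℂ, Sum.elim t q ∈ Pt (Sum.elim ζ f)) ∧
    (∀ (W : Type) [NormedAddCommGroup W] [NormedSpace ℂ W] [FiniteDimensional ℂ W] (U : Set W)
      (X : W → Fin m → ℂ), IsOpen U → Convex ℝ U → DifferentiableOn ℂ X U →
      (∀ u ∈ U, eval (X u) H ≠ 0) → ∀ u₀ ∈ U, ∀ q₀ : κ → ℂ,
      Sum.elim (X u₀) q₀ ∈ Pt (Sum.elim ζ f) →
      ∃ q : W → κ → ℂ, DifferentiableOn ℂ q U ∧ q u₀ = q₀ ∧
        ∀ u ∈ U, Sum.elim (X u) (q u) ∈ Pt (Sum.elim ζ f)) ∧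
    ∀ (k₀ : κ) (P : MvPolynomial (Option (Fin m)) ℂ), Irreducible P →
      aeval (oe (f k₀) ζ) P = 0 → ∃ g : MvPolynomial (Fin m) ℂ, g ≠ 0 ∧
        ∀ (t : Fin m → ℂ) (w : ℂ), eval t g ≠ 0 → eval (oe w t) P = 0 →
          ∃ q : κ → ℂ, Sum.elim t q ∈ Pt (Sum.elim ζ f) ∧ q k₀ = w

/-- JOB FIXP. A fixed point depending on a parameter.
Proof. For `s ∈ ball 0 1` and `‖w‖ < 1/2` the map `w ↦ ℓ(w, s)` has derivative at most `(1/64) / (1/2) = 1/32` (Cauchy), so it is a contraction of `closedBall 0 (1/64)` with a unique fixed point `φ s` there (unique in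
`ball 0 (1/2)`). The iterates `φ_0 = 0`, `φ_{n+1} s = ℓ(φ_n s, s)` are holomorphic and converge uniformly (`‖φ_{n+1} - φ_n‖ ≤ (1/32)^n / 64`), so `φ` is holomorphic. -/
def S_fixp : Prop := ∀ ℓ : (Fin 2 → ℂ) → ℂ, DifferentiableOn ℂ ℓ (ball 0 1) →
  (∀ u ∈ ball (0 : Fin 2 → ℂ) 1, ‖ℓ u‖ ≤ 1 / 64) →
  ∃ φ : ℂ → ℂ, DifferentiableOn ℂ φ (ball 0 1) ∧
    ∀ s ∈ ball (0 : ℂ) 1, ‖φ s‖ ≤ 1 / 64 ∧ φ s = ℓ ![φ s, s]

/-- JOB DCOMP. Derivatives along the slices.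
Proof. For `k ∈ Q ∪ {v}` let `A_k(z, t, k) = 0` be the minimal polynomial of `k` over `ℂ(z, t)`, cleared of denominators, `A_k ∈ ℂ[z, t][X]`, `w_k = (∂_X A_k)(z, t, k) ≠ 0`; `Q'` contains `Q`, the `w_k`, `(∂_z A_k)(z,t,k)`, `(∂_t A_k)(z,t,k)`, `D z`, `D k`, the
same for `y`, and `u = (∂_z A_y)(z,t,y) + y (∂_X A_y)(z,t,y)`. Claim: `u ≠ 0`. Let `∂₁, ∂₂` be the derivations of `K` with `∂₁ z = 1`, `∂₁ t = 0`, `∂₂ z = 0`, `∂₂ t = 1`. Then `∂_z A_y + w_y ∂₁ y = 0`, so `u = w_y (y - ∂₁ y)`; and `∂₁ y ≠ y` by S_axK (`D = ∂₁`, `n = m = 1`, `x = v = z`;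
`t` is a constant of `∂₁`). On `U`: `A_y(X(τ), τ, e^{X(τ)}) = 0`, so by differentiation `u° X' = -(∂_t A_y)°` (`°`: the value at the point), and in `K` `u D z = -(∂_t A_y)` (apply `D`, `D y = y D z`), so `u° (D z)° = -(∂_t A_y)°`; as `u° ≠ 0`, `X' = q (D z)`.
For `k`: `(∂_z A_k)° X' + (∂_t A_k)° + w_k° (q k)' = 0` and in `K` `(∂_z A_k) D z + ∂_t A_k + w_k D k = 0`; so `(q k)' = q (D k)`. The same for `v`, `V`. -/
def S_dcomp : Prop := ∀ (K : Type) [Field K] [Algebra ℂ K] (S : Sl K) (Q : Finset K),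
  ∃ Q' : Finset K, Q ⊆ Q' ∧ ∀ (U : Set ℂ) (X V : ℂ → ℂ) (q : K → ℂ → ℂ), IsOpen U →
    DifferentiableOn ℂ X U → DifferentiableOn ℂ V U → (∀ k ∈ Q', DifferentiableOn ℂ (q k) U) →
    (∀ τ ∈ U, Sum.elim ![X τ, τ, V τ, Complex.exp (X τ)] (fun k : Q' => q k τ) ∈
      Pt (Sum.elim ![S.z, S.t, S.v, S.y] (fun k : Q' => (k : K)))) →
    (∀ τ ∈ U, ∀ k ∈ Q', k ≠ 0 → q k τ ≠ 0) →
    (∀ τ ∈ U, ∀ k ∈ Q, S.D k ∈ Q → deriv (q k) τ = q (S.D k) τ) ∧
    ∀ τ ∈ U, S.D S.v ∈ Q → deriv V τ = q (S.D S.v) τ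

/-- a slice `z = X(t)`, `v = V(t)`, `y = e^{X(t)}` over `|t - R ω| < R / 8`, with the values `q k` of the functions `k ∈ Q` -/
structure SlAt {K : Type} [Field K] [Algebra ℂ K] (S : Sl K) (Q : Finset K) (ω γ : ℂ)
    (C δ R : ℝ) (X V : ℂ → ℂ) (q : K → ℂ → ℂ) : Prop where
  dX : DifferentiableOn ℂ X (ball (R * ω) (R / 8))
  dV : DifferentiableOn ℂ V (ball (R * ω) (R / 8))
  dq : ∀ k ∈ Q, DifferentiableOn ℂ (q k) (ball (R * ω) (R / 8))
  pt : ∀ τ ∈ ball (R * ω) (R / 8),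
    Sum.elim ![X τ, τ, V τ, Complex.exp (X τ)] (fun k : Q => q k τ) ∈
      Pt (Sum.elim ![S.z, S.t, S.v, S.y] (fun k : Q => (k : K)))
  bV : ∀ τ ∈ ball (R * ω) (R / 8), ‖V τ - γ * τ‖ ≤ δ * R
  bq : ∀ τ ∈ ball (R * ω) (R / 8), ∀ k ∈ Q, ‖q k τ‖ ≤ R ^ C ∧ (k ≠ 0 → R ^ (-C) ≤ ‖q k τ‖)
  der : ∀ τ ∈ ball (R * ω) (R / 8), ∀ k ∈ Q, S.D k ∈ Q → deriv (q k) τ = q (S.D k) τ
  derV : ∀ τ ∈ ball (R * ω) (R / 8), S.D S.v ∈ Q → deriv V τ = q (S.D S.v) τ

/-- JOB SLICE. Existence of slices. Proof (uses S_sheet, S_bnd, S_rootv, S_fixp, S_dcomp, and `S_log`, `S_bc` of the library (Q72/EG/Stm.lean, proved, see Q72/EG/All.lean)).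
Replace `Q` by `Q'` of S_dcomp (at the end restrict to `Q`), add `0`-free family `f` = all nonzero elements of `Q' ∪ {v, y}` (for `k = 0` the value is `0`). `H` from S_sheet (`m = 2`, `ζ = ![z, t]`), `g` from S_sheet (3) for `v` and the polynomial `P`
(renamed), `C₁, R₁` from S_bnd. Let `R` be large, `a = 2 π n` with an integer `n`, `A log R ≤ a ≤ (log R)^2`, `A` a large constant. `H`, `g` have no zeros on `reg a R ω` (S_bnd). With `δ' ` small (`4 δ' ≤ δ`) S_rootv gives `η`, and a root `w₀` at the centre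
`(i a, R ω)`; S_sheet (3) a point over the centre with `v`-value `R ω w₀`; S_sheet (2) with `W = Fin 2 → ℂ`, `U = ball 0 1`, `X u = (i a + (a/2) u_0, R ω + (R/2) u_1)` a holomorphic family of points over `reg a R ω`. The `v`-value is `t w`, with
`|w - γ| < η` on all of `U` because it is never `= η` (connectedness). The `y`-value has a holomorphic logarithm `ℓ` on `U` (`S_log`), `|Re ℓ| ≤ C₁ log R`, so `|ℓ| ≤ 6 C₁ log R + 10` on `ball 0 (1/2)` (`S_bc`).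
The equation `z = i a + ℓ` reads `w_0 = (4/a) ℓ(w/2)` for `u = w/2`, and `|(4/a) ℓ| ≤ 1/64` for `A` large. S_fixp: `w_0 = φ(w_1)`. So for `|τ - R ω| < R/4`: `w_1 = (τ - R ω) 4/R`, `X(τ) = i a + (a/4) φ(w_1)`,
`e^{X} = e^{i a} e^{ℓ}` = the `y`-value. The estimates and `der` (S_dcomp) follow. -/
def S_slice : Prop := ∀ (K : Type) [Field K] [Algebra ℂ K] (S : Sl K)
  (P : MvPolynomial (Fin 3) ℂ) (d J : ℕ) (γ : ℂ), Irreducible P →
  aeval ![S.z, S.t, S.v] P = 0 → Root P d J γ → ∀ Q : Finset K,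
  ∃ C : ℝ, ∀ δ : ℝ, 0 < δ → ∃ R₀ : ℝ, ∀ R : ℝ, R₀ ≤ R → ∀ ω : ℂ, ‖ω‖ = 1 →
    ∃ (X V : ℂ → ℂ) (q : K → ℂ → ℂ), SlAt S Q ω γ C δ R X V q

/-- JOB ZERO2. Lower bounds for exponential polynomials in `V` on slices.
Proof by induction on `#F`. If `F = {b}`: `Q₀ = {c b}`, `‖q (c b)‖ ≥ R^(-C)`, `‖exp (b V)‖ ≥ exp (-b δ R)`. Otherwise let `b₀ ∈ F`, for `b ∈ F \ {b₀}` `c' b = c b₀ (D (c b) + b (D v) (c b)) - (D (c b₀) + b₀ (D v) (c b₀)) c b`, which is not zero by hypothesis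
(for `r = c b / c b₀`: `D r = (b₀ - b) (D v) r` otherwise). `Q₀` = the `Q₀` of the induction for `F \ {b₀}`, `c'`, together with `c b`, `D (c b)`, `D v`, `c' b`. Let `f = ∑_F q (c b) exp (b V)`. By `der`, `derV` and the polynomial relations between the elements of `Q` (`pt`),
`q (c b₀) f' - (q (D (c b₀)) + b₀ q (D v) q (c b₀)) f = ∑_{b ≠ b₀} q (c' b) exp (b V)`. If `‖f‖ < exp (-η R)` on `ball p (ρ R)` then `‖f'‖ ≤ exp (-η R) 2 / (ρ R)` on `ball p (ρ R / 2)`, so the right hand side is at most `R^(C') exp (-η R) < exp (-η R / 2)`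
there for `R` large, contradicting the induction hypothesis with `η / 2`, `ρ / 2`. -/
def S_zero2 : Prop := ∀ (K : Type) [Field K] [Algebra ℂ K] (S : Sl K),
  (∀ c : K, c ≠ 0 → ∀ j : ℤ, j ≠ 0 → S.D c ≠ j * S.D S.v * c) →
  ∀ (F : Finset ℕ) (c : ℕ → K), F.Nonempty → (∀ b ∈ F, c b ≠ 0) →
  ∃ Q₀ : Finset K, ∀ Q : Finset K, Q₀ ⊆ Q → ∀ C η ρ : ℝ, 0 < η → 0 < ρ →
    ∃ δ R₀ : ℝ, 0 < δ ∧ ∀ R : ℝ, R₀ ≤ R → ∀ (ω : ℂ) (X V : ℂ → ℂ) (q : K → ℂ → ℂ),
      SlAt S Q ω 0 C δ R X V q → ∀ p : ℂ, ball p (ρ * R) ⊆ ball (R * ω) (R / 8) →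
      ∃ τ ∈ ball p (ρ * R), Real.exp (-(η * R)) ≤
        ‖∑ b ∈ F, q (c b) τ * Complex.exp ((b : ℂ) * V τ)‖

/-- JOB LIM. Exponential growth functions of functions without zeros.
Proof. Otherwise there are `R_j → ∞`, `δ_j → 0` and `F_j` without zeros on the ball `B₀ = ball ω r`, with these bounds. `F_j` has a holomorphic logarithm; let `g_j = exp ((log F_j) / R_j)`: `‖g_j‖ ≤ exp (h + δ_j)`, bounded on `B₀`, and
`‖g_j(s_j)‖ ≥ exp (h(s_j) - δ_j)` for some `s_j ∈ closedBall p₁ (ρ/2)`, `‖g_j(s'_j)‖ ≥ exp (h(s'_j) - δ_j)`, `s'_j ∈ closedBall p₂ (ρ/2)`. Montel (for example along an ultrafilter, see `mon` in Pool/Agent/H664/FH/Ana.lean): `g_j → g` locally uniformly on `B₀`, `s_j → s`, `s'_j → s'`.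
On `ball p₁ ρ`: `‖g(w) exp(-s₁ w)‖ ≤ 1` with equality at the interior point `s`, so `g = c exp(s₁ w)` there, `‖c‖ = 1`, and by the identity theorem on `B₀`. At `s'`: `‖g(s')‖ ≥ exp (h(s')) > exp (Re (s₁ s')) = ‖g(s')‖`, contradiction. -/
def S_lim : Prop := ∀ (ω p₁ p₂ s₁ s₂ : ℂ) (r ρ B : ℝ) (h : ℂ → ℝ), 0 < ρ →
  ball p₁ ρ ⊆ ball ω r → ball p₂ ρ ⊆ ball ω r → (∀ s ∈ ball ω r, h s ≤ B) →
  (∀ s ∈ ball p₁ ρ, h s = (s₁ * s).re) → (∀ s ∈ ball p₂ ρ, h s = (s₂ * s).re) →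
  (∀ s ∈ ball p₂ ρ, (s₁ * s).re < (s₂ * s).re) →
  ∃ δ R₀ : ℝ, 0 < δ ∧ ∀ (R : ℝ) (F : ℂ → ℂ), R₀ ≤ R → DifferentiableOn ℂ F (ball ω r) →
    (∀ s ∈ ball ω r, ‖F s‖ ≤ Real.exp (R * (h s + δ))) →
    (∃ s ∈ closedBall p₁ (ρ / 2), Real.exp (R * (h s - δ)) ≤ ‖F s‖) →
    (∃ s ∈ closedBall p₂ (ρ / 2), Real.exp (R * (h s - δ)) ≤ ‖F s‖) →
    ∃ s ∈ ball ω r, F s = 0

/-- JOB TIE. Proof. For `s ∈ S` let `U_s` be the set of the `p` on the unit circle such that `s` is the unique maximizer of `Re (s p)` in `S`, and `A_s` its closure. The points without unique maximizer satisfy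
`Re ((s - s') p) = 0` for some `s ≠ s'`, a finite set, so the `A_s` cover the circle. If all pairs `A_s`, `A_{s'}`, `s ≠ s'`, are disjoint then, the circle being connected, one `A_s` is the whole circle, so `s` is a maximizer for all `p` on the circle, i.e.
`Re ((s - s') p) ≥ 0` for all `p`, `s' = s` for all `s' ∈ S`: contradiction. So there are `s₁ ≠ s₂` and `ω ∈ A_{s₁} ∩ A_{s₂}`. -/
def S_tie : Prop := ∀ S : Finset ℂ, 2 ≤ S.card → ∃ ω : ℂ, ‖ω‖ = 1 ∧ ∃ s₁ ∈ S, ∃ s₂ ∈ S,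
  s₁ ≠ s₂ ∧ ∀ ε : ℝ, 0 < ε → ∃ p₁ p₂ : ℂ, ‖p₁ - ω‖ < ε ∧ ‖p₂ - ω‖ < ε ∧
    (∀ s ∈ S, s ≠ s₁ → (s * p₁).re < (s₁ * p₁).re) ∧
    ∀ s ∈ S, s ≠ s₂ → (s * p₂).re < (s₂ * p₂).re

/-! ### One independent variable -/

/-- JOB RAY. The solutions of `e^z = y(z)`, with a continuous index `κ`.
Proof. As S_slice, in one variable. `a = K₀` large, `Q'` ⊇ `Q` as in S_dcomp (one variable version, with the derivation `D` and the relation `D y = y (D z - 2πi)`: for the minimal polynomial `A_y(z, y) = 0`, `u = ∂_z A_y + y ∂_X A_y`, `X' = 1 · ...`, see below).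
Over `Ω = {|z - 2πi K₀| < 4 K₀}` (all `|z|` large there, `S_sheet` with `m = 1`) there is a holomorphic family of points; all values of nonzero `k` are between `K₀^(-C)` and `K₀^C`; `ℓ = log y`, `|ℓ| ≤ C' log K₀` on `{|z - 2πi K₀| < 2 K₀}`.
For `|κ - K₀| < K₀/4` the equation `z = 2πi κ + ℓ(z)` has a unique solution `z = X(κ)` in `{|z - 2πi κ| < 1 + C' log K₀}`, by a contraction (`|ℓ'| ≤ C' log K₀ / K₀`), holomorphic in `κ` (S_fixp, rescaled: unknown `(z - 2πi κ) / K₀`, parameter `4 (κ - K₀)/K₀`).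
`e^{X} = e^{2πi κ} y`. Derivatives: on the ball `A_y(X, e^{X - 2πi κ}) = 0`, so `(∂_z A_y)° X' + (∂_X A_y)° y° (X' - 2πi) = 0`, and in `K` the same holds with `D z` in place of `X'`; `u ≠ 0` by S_axK as in S_dcomp. -/
def S_ray : Prop := ∀ (K : Type) [Field K] [Algebra ℂ K] (z y : K) (D : Derivation ℂ K K),
  Transcendental ℂ z → (∀ f : K, Al {z} f) → y ≠ 0 →
  D y = y * (D z - algebraMap ℂ K (2 * Real.pi * Complex.I)) → ∀ Q : Finset K,
  ∃ C T₀ : ℝ, ∀ T : ℝ, T₀ ≤ T → ∃ (X : ℂ → ℂ) (q : K → ℂ → ℂ),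
    DifferentiableOn ℂ X (ball (T : ℂ) (T / 4)) ∧
    (∀ k ∈ Q, DifferentiableOn ℂ (q k) (ball (T : ℂ) (T / 4))) ∧
    ∀ κ ∈ ball (T : ℂ) (T / 4),
      Sum.elim ![X κ, Complex.exp (X κ - 2 * Real.pi * Complex.I * κ)] (fun k : Q => q k κ) ∈
        Pt (Sum.elim ![z, y] (fun k : Q => (k : K))) ∧
      (∀ k ∈ Q, ‖q k κ‖ ≤ T ^ C ∧ (k ≠ 0 → T ^ (-C) ≤ ‖q k κ‖)) ∧
      ∀ k ∈ Q, D k ∈ Q → deriv (q k) κ = q (D k) κ

/-- JOB OV1. Proof (uses S_ray, S_axK). Replace `K` by its algebraic closure (the hypotheses are inherited). There is a derivation `D` with `D y = y (D z - 2πi)`: `D = 2πi / (1 - ∂y/y) ∂`, `∂ z = 1` (`∂ y ≠ y` by S_axK). `∑_F c_b T^b = c ∏ (T - r_i)` with `r_i ∈ K`; let `I` be the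
set of the `i` with `r_i ≠ 0`. Suppose that the sum vanishes at all points. Let `Q` be large (`Q`, `θ`, `c_b`, `r_i`, `δ_i = D θ - D r_i / r_i`, `D^j δ_i` and their inverses, …). On `ball T (T/4)` (`T` large) let `ψ_i = (θ - log r_i)/(2πi)` (holomorphic logarithm of `q r_i`), `|ψ_i| ≤ T^C'`. At every integer
`k` in the ball `∏ (e^{θ} - r_i) = 0` (there `exp (X k - 2πi k) = exp (X k)`), so `ψ_i(k) ∈ ℤ` for some `i ∈ I`. Let `N > C' + 1`. Among `(N + 1) #I` consecutive integers near `T` there are `k_0 < … < k_N` with the same `i`. The divided difference `[k_0, …, k_N] ψ_i` is a rational number with bounded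
denominator, and equal to `Re ψ_i^{(N)}(ξ) / N!` for some real `ξ ∈ [k_0, k_N]` (real parts, Rolle's theorem), which is `O(T^{C' - N})` by Cauchy's estimates. So it is `0` for `T` large. `ψ_i^{(N)} = q(D^{N-1} δ_i) / (2πi)`. If `D^{N-1} δ_i ≠ 0` then `g = q(D^{N-1} δ_i)` has no zeros,
`|log |g|| ≤ C log T`, so `g(κ)/g(T)` is close to `1` for `|κ - T|` bounded, and Rolle's theorem for the real part of `(ψ_i - interpolation polynomial) / g(T) · 2πi` is violated. So `D^{N-1} δ_i = 0` for some `i`. Let `M` be minimal with `D^M δ = 0`, `δ = δ_i`, `r = r_i`. The constants of `D` are `ℂ`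
(`K` is algebraic over `ℂ(z)`, `D z ≠ 0`). `M = 0`: `D θ = D r / r`; S_axK (`n = m = 1`, `x = θ`, `y = r`, `v = z`) gives `D θ = 0`, `θ ∈ ℂ`, contradiction. `M = 1`: `δ = c₀ ∈ ℂ`, not zero, `ψ' = c₀/(2πi)` is rational as `ψ(k_1) - ψ(k_0) ∈ ℤ`: `c₀ / (2πi) = p / s`; then `D (s θ - p z) = D h / h`
for `h = r^s y^{-p}`, so `D (s θ - p z) = 0` by S_axK, `s θ - p z ∈ ℂ`, contradiction. `M ≥ 2`: `η = D^{M-2} δ` satisfies `D η = c₀ ∈ ℂ`, not zero, so `D (z - 2πi η / c₀) = D z - 2πi = D y / y`; by S_axK this is `0`, so `y ∈ ℂ`, contradiction. -/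
def S_ov1 : Prop := ∀ (K : Type) [Field K] [Algebra ℂ K] (z θ y : K), Transcendental ℂ z →
  (∀ f : K, Al {z} f) → y ≠ 0 → (∀ c : ℂ, y ≠ algebraMap ℂ K c) →
  (∀ m₁ m₂ : ℤ, (m₁ ≠ 0 ∨ m₂ ≠ 0) → ∀ c : ℂ, (m₁ : K) * z + m₂ * θ ≠ algebraMap ℂ K c) →
  ∀ (F : Finset ℕ) (c : ℕ → K) (Q : Finset K), F.Nonempty → (∀ b ∈ F, c b ≠ 0 ∧ c b ∈ Q) →
  ∃ (z₀ θ₀ : ℂ) (q : K → ℂ),
    Sum.elim ![z₀, θ₀, Complex.exp z₀] (fun k : Q => q k) ∈
      Pt (Sum.elim ![z, θ, y] (fun k : Q => (k : K))) ∧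
    ∑ b ∈ F, q (c b) * Complex.exp θ₀ ^ b ≠ 0

/-- JOB OV. Proof (uses S_ov1). `K` = the algebraic closure of `ℂ(z)` in `E` (an `IntermediateField`), `θ, y ∈ K`. `S_lift0` (library) or `S_alg` for `ζ = (z, θ, y, w)` and the family `Q` gives `H`, `aeval ζ H ≠ 0`, such that every point of `Pt ζ` with `H ≠ 0` can be lifted to a point of
`Pt (ζ, Q)`. `H = ∑_b H_b(z, θ, y) w^b`; `F` = the set of the `b` with `c_b = H_b(z, θ, y) ≠ 0` in `K`; not empty. S_ov1 gives a point `(z₀, θ₀, exp z₀)` of `Pt (z, θ, y)` with `H(z₀, θ₀, exp z₀, exp θ₀) ≠ 0`; and `(z₀, θ₀, exp z₀, exp θ₀) ∈ Pt ζ` as `w` is transcendental over `K` (the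
coefficients of a relation vanish). -/
def S_ov : Prop := ∀ (E : Type) [Field E] [Algebra ℂ E] (z θ y w : E),
  AlgebraicIndependent ℂ ![z, w] → Al {z} θ → Al {z} y → y ≠ 0 →
  (∀ c : ℂ, y ≠ algebraMap ℂ E c) →
  (∀ m₁ m₂ : ℤ, (m₁ ≠ 0 ∨ m₂ ≠ 0) → ∀ c : ℂ, (m₁ : E) * z + m₂ * θ ≠ algebraMap ℂ E c) →
  ∀ Q : Finset E, (∀ k ∈ Q, Al {z, w} k) → ∃ (z₀ θ₀ : ℂ) (q : E → ℂ),
    Sum.elim ![z₀, θ₀, Complex.exp z₀, Complex.exp θ₀] (fun k : Q => q k) ∈
      Pt (Sum.elim ![z, θ, y, w] (fun k : Q => (k : E)))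

/-- JOB BM. The theorem of Brownawell and Masser, with further algebraic functions.
Proof. S_sheet for `ζ` and the family of the `y_i` and the elements of `Q`, `H`. Choose a real vector `ω` with `top H (i ω) ≠ 0` and the same for the finitely many polynomials used below (leading and constant coefficients of the minimal polynomials of the `y_i`), `ω` with rational
direction or round: for `T` large put `M = ` nearest integral vector to `T ω`. On `ball (2πi M) (ε T)` (`ε` small) these polynomials have no zeros and the values of the `y_i` are between `T^(-C)` and `T^C`. S_sheet gives a holomorphic family of points over this ball, `S_log`, `S_bc`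
logarithms `h_i` of the `y_i`-values, `‖h‖ ≤ 6 C log T + 10` on the half ball, `S_fix` (library, Q72/EG/Stm.lean) a solution of `u = 2πi M + h(u)`. -/
def S_bm : Prop := ∀ (m : ℕ) (K : Type) [Field K] [Algebra ℂ K] (ζ y : Fin m → K)
  (Q : Finset K), AlgebraicIndependent ℂ ζ → (∀ i, Al (Set.range ζ) (y i)) → (∀ i, y i ≠ 0) →
  (∀ k ∈ Q, Al (Set.range ζ) k) → ∃ (z : Fin m → ℂ) (q : K → ℂ),
    Sum.elim (Sum.elim z (fun i => Complex.exp (z i))) (fun k : Q => q k) ∈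
      Pt (Sum.elim (Sum.elim ζ y) (fun k : Q => (k : K)))

end Pool.Agent.H664.EX
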