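import Pool.Agent.H664.EX.V3
import Pool.Agent.H356.EX.AxK
import Pool.Agent.H591.EX.Der
import Pool.Agent.H251.EX.NoExp2
import Pool.Agent.H199.EX.Degen
import Pool.Agent.H720.EX.Gp
import Pool.Agent.H671.EX.Bnd
import Pool.Agent.H100.EX.Rootv
import Pool.Agent.H100.EX.Rot
import Pool.Agent.H286.EX.Sheet
import Pool.Agent.H286.EX.Deg
import Pool.Agent.H122.EX.Fixp
import Pool.Agent.H71.EX.Dcomp
import Pool.Agent.H388.EX.Slice
import Pool.Agent.H388.EX.ZeroF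
import Pool.Agent.H338.EX.Zero2
import Pool.Agent.H79.EX.Lim
import Pool.Agent.H79.EX.RayX
import Pool.Agent.H333.EX.Tie
import Pool.Agent.H249.EX.OV
import Pool.Agent.H860.EX.BM
import Pool.Agent.H860.EX.Rottr
import Pool.Agent.H287.EX.MAINA
import Pool.Agent.H870.EX.R2A
import Pool.Agent.H127.EX.Curve2
import Pool.Agent.H233.EX.R2B
import Pool.Agent.H597.EX.Croot
import Pool.Agent.H190.EX.Proj
import Pool.Agent.H553.EX.Dom
import Pool.Agent.H106.EX.Lat
import Pool.Agent.H278.EX.CoordE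

/-! Project EX (helper664): all parts. -/

set_option autoImplicit false

namespace Pool.Agent.H664.EX

open MvPolynomial Filter Topology Metric Pool.Agent.W996.EC Pool.Agent.Q72.EG Pool.Agent.H664.FH
open Pool.Agent.Y563.SE

theorem all_axK : S_axK := Pool.Agent.H356.EX.axK
theorem all_sheet : S_sheet := Pool.Agent.H286.EX.sheet
theorem all_bm : S_bm := Pool.Agent.H860.EX.bm all_sheet
theorem all_gp : S_gp := Pool.Agent.H720.EX.gp
theorem all_ov : S_ov := Pool.Agent.H249.EX.ov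
  (Pool.Agent.H79.EX.ov1 all_sheet Pool.Agent.H122.EX.fixp all_axK)
theorem all_slice : S_slice := Pool.Agent.H388.EX.slice all_sheet Pool.Agent.H671.EX.bnd
  Pool.Agent.H100.EX.rootv Pool.Agent.H122.EX.fixp (Pool.Agent.H71.EX.dcomp all_axK)
theorem all_zeroF : S_zeroF := Pool.Agent.H388.EX.zeroF all_slice Pool.Agent.H338.EX.zero2
  Pool.Agent.H79.EX.lim Pool.Agent.H333.EX.tie
theorem all_mainA : S_mainA := Pool.Agent.H287.EX.mainA (Pool.Agent.H591.EX.der all_axK)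
  (Pool.Agent.H251.EX.noexp2 all_axK) Pool.Agent.H199.EX.degen
  (Pool.Agent.H286.EX.deg all_ov all_gp) all_gp all_zeroF
theorem all_r2a : S_r2a := Pool.Agent.H870.EX.r2a all_bm
theorem all_curve2 : S_curve2 := Pool.Agent.H127.EX.curve2 all_ov fdense
theorem all_r2b : S_r2b := Pool.Agent.H233.EX.r2b all_curve2

/-- all free rotund varieties of dimension three -/
theorem all_v3 (I : Ideal (MvPolynomial (Fin 3 ⊕ Fin 3) ℂ)) (V : Set (Fin 3 ⊕ Fin 3 → ℂ))
    (hV : IsVar I V) (hdim : HasDimV V 3)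
    (hadd : ∀ m : Fin 3 → ℤ, m ≠ 0 → ∀ c : ℂ, ∃ p ∈ V,
      (∑ j : Fin 3, (m j : ℂ) * p (Sum.inl j)) ≠ c)
    (hmul : ∀ m : Fin 3 → ℤ, m ≠ 0 → ∀ c : ℂ, ∃ p ∈ V,
      (∏ j : Fin 3, p (Sum.inr j) ^ (m j)) ≠ c) (hrot : Rotund V) :
    ∃ z : Fin 3 → ℂ, Sum.elim z (fun l => Complex.exp (z l)) ∈ V :=
  v3 Pool.Agent.H106.EX.lat Pool.Agent.H597.EX.croot Pool.Agent.H278.EX.coordE all_mainA all_r2a
    all_r2b Pool.Agent.H190.EX.proj (Pool.Agent.H553.EX.dom all_bm) Pool.Agent.H100.EX.rot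
    I V hV hdim hadd hmul hrot

end Pool.Agent.H664.EX
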