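import Pool.Agent.H664.EX.Stm2

/-! Project EX (helper664): assembly of the function field part. -/

set_option autoImplicit false

namespace Pool.Agent.H664.EX

open MvPolynomial Filter Topology Metric Pool.Agent.W996.EC Pool.Agent.Q72.EG Pool.Agent.H664.FH

theorem fdense : S_fdense := by
  intro n E _ _ G H hadd hm hH
  by_contra hcon
  push Not at hcon
  obtain ⟨l, f, hl0, hf, hlim⟩ := all_dich n E G.P G.x G.y G.hP G.hx G.hy G.tr1 hm H hH hcon
  obtain ⟨z, hz1, hz2⟩ := coreB coreR_all G H l f hH hf hlim hadd (by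
    intro h
    apply hl0
    have h1 : Submodule.span ℝ {v : Fin n → ℝ | ∃ m : Fin n → ℤ,
        ¬ Transcendental (IntermediateField.adjoin ℂ (Set.range G.x)) (∏ j, G.y j ^ m j) ∧
        v = fun j => (m j : ℝ)} ≤ ⊥ := by
      rw [Submodule.span_le]
      rintro v ⟨m, hm', rfl⟩
      have : m = 0 := by
        by_contra h
        exact hm' (hm m h)
      rw [this]
      simp
      rfl
    simpa using h1 h)
  exact hz2 (hcon z hz1)

/-- additive freeness in the function field -/
theorem addFree_ne {n : ℕ} {E : Type} [Field E] [Algebra ℂ E] (G : Cv n E) (h : AddFree G.P)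
    (m : Fin n → ℤ) (hm : m ≠ 0) (c : ℂ) : ∑ j, ((m j : ℤ) : E) * G.x j ≠ algebraMap ℂ E c := by
  intro he
  refine h m hm c ((G.hx _).1 ?_)
  simp only [map_sub, map_sum, map_mul, aeval_C, aeval_X]
  rw [← he]
  simp

theorem addFree_of_ne {n : ℕ} {E : Type} [Field E] [Algebra ℂ E] (G : Cv n E)
    (h : ∀ m : Fin n → ℤ, m ≠ 0 → ∀ c : ℂ, ∑ j, ((m j : ℤ) : E) * G.x j ≠ algebraMap ℂ E c) :
    AddFree G.P := by
  intro m hm c hd
  refine h m hm c ?_
  have := (G.hx _).2 hd
  simp only [map_sub, map_sum, map_mul, aeval_C, aeval_X] at this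
  have h2 := sub_eq_zero.1 this
  rw [← h2]
  simp

/-- the data of a hypersurface model which are invariant under coordinate changes -/
structure Md {E : Type} [Field E] [Algebra ℂ E] (G : Cv 3 E) : Prop where
  add : ∀ m : Fin 3 → ℤ, m ≠ 0 → ∀ c : ℂ, ∑ j, ((m j : ℤ) : E) * G.x j ≠ algebraMap ℂ E c
  mul : ∀ m : Fin 3 → ℤ, m ≠ 0 → ∀ c : ℂ, ∏ j, G.y j ^ m j ≠ algebraMap ℂ E c
  rot : ∀ m₀ m₁ : Fin 3 → ℤ, (∀ a b : ℤ, a • m₀ + b • m₁ = 0 → a = 0 ∧ b = 0) →
    ¬ (Al {∑ j, ((m₀ j : ℤ) : E) * G.x j} (∑ j, ((m₁ j : ℤ) : E) * G.x j) ∧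
      Al {∑ j, ((m₀ j : ℤ) : E) * G.x j} (∏ j, G.y j ^ m₀ j) ∧
      Al {∑ j, ((m₀ j : ℤ) : E) * G.x j} (∏ j, G.y j ^ m₁ j))

theorem vecMul_ne {n : ℕ} {M M' : Matrix (Fin n) (Fin n) ℤ} (h : M * M' = 1) {m : Fin n → ℤ}
    (hm : m ≠ 0) : Matrix.vecMul m M ≠ 0 := by
  intro h0
  apply hm
  have : Matrix.vecMul (Matrix.vecMul m M) M' = 0 := by rw [h0, Matrix.zero_vecMul]
  rwa [Matrix.vecMul_vecMul, h, Matrix.vecMul_one] at this

theorem sum_vecMul {n : ℕ} {E : Type} [Field E] (M : Matrix (Fin n) (Fin n) ℤ) (m : Fin n → ℤ)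
    (x : Fin n → E) : ∑ i, ((m i : ℤ) : E) * ∑ j, ((M i j : ℤ) : E) * x j =
      ∑ j, ((Matrix.vecMul m M j : ℤ) : E) * x j := by
  simp only [Matrix.vecMul, dotProduct, Int.cast_sum, Int.cast_mul, Finset.sum_mul,
    Finset.mul_sum]
  rw [Finset.sum_comm]
  refine Finset.sum_congr rfl fun j _ => Finset.sum_congr rfl fun i _ => ?_
  ring

theorem prod_vecMul {n : ℕ} {E : Type} [Field E] (M : Matrix (Fin n) (Fin n) ℤ) (m : Fin n → ℤ)
    (y : Fin n → E) (hy : ∀ i, y i ≠ 0) : ∏ i, (∏ j, y j ^ M i j) ^ m i =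
      ∏ j, y j ^ Matrix.vecMul m M j := by
  have h1 : ∀ i, (∏ j, y j ^ M i j) ^ m i = ∏ j, y j ^ (m i * M i j) := by
    intro i
    rw [← Finset.prod_zpow]
    refine Finset.prod_congr rfl fun j _ => ?_
    rw [← zpow_mul, mul_comm]
  simp only [h1]
  rw [Finset.prod_comm]
  refine Finset.prod_congr rfl fun j _ => ?_
  simp only [Matrix.vecMul, dotProduct]
  have := Finset.prod_congr (rfl : (Finset.univ : Finset (Fin n)) = Finset.univ)
    (fun i (_ : i ∈ Finset.univ) => (rfl : y j ^ (m i * M i j) = y j ^ (m i * M i j)))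
  symm
  induction (Finset.univ : Finset (Fin n)) using Finset.induction_on with
  | empty => simp
  | insert a s ha ih =>
    rw [Finset.sum_insert ha, Finset.prod_insert ha, zpow_add₀ (hy j), ih]

/-- change of coordinates -/
theorem md_coord {E : Type} [Field E] [Algebra ℂ E] {G : Cv 3 E} (hG : Md G)
    {M M' : Matrix (Fin 3) (Fin 3) ℤ} (h : M * M' = 1) (G' : Cv 3 E)
    (hx : ∀ i, G'.x i = ∑ j, ((M i j : ℤ) : E) * G.x j)
    (hy : ∀ i, G'.y i = ∏ j, G.y j ^ M i j) : Md G' := by
  have e1 : ∀ m : Fin 3 → ℤ, ∑ i, ((m i : ℤ) : E) * G'.x i =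
      ∑ j, ((Matrix.vecMul m M j : ℤ) : E) * G.x j := by
    intro m
    rw [← sum_vecMul]
    simp only [hx]
  have e2 : ∀ m : Fin 3 → ℤ, ∏ i, G'.y i ^ m i = ∏ j, G.y j ^ Matrix.vecMul m M j := by
    intro m
    rw [← prod_vecMul M m G.y G.hy]
    simp only [hy]
  refine ⟨fun m hm c => ?_, fun m hm c => ?_, fun m₀ m₁ hm => ?_⟩
  · rw [e1]
    exact hG.add _ (vecMul_ne h hm) c
  · rw [e2]
    exact hG.mul _ (vecMul_ne h hm) c
  · rw [e1, e1, e2, e2]
    refine hG.rot _ _ fun a b hab => ?_
    by_contra hcon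
    have h1 : a • m₀ + b • m₁ ≠ 0 := fun h0 => hcon (hm a b h0)
    apply vecMul_ne h h1
    rw [Matrix.add_vecMul, Matrix.smul_vecMul, Matrix.smul_vecMul]
    exact hab

/-- the case of a hypersurface -/
theorem r2 (hlat : S_lat) (hcroot : S_croot) (hco : S_coordE) (hmain : S_mainA) (hr2a : S_r2a)
    (hr2b : S_r2b) {E : Type} [Field E] [Algebra ℂ E] (G : Cv 3 E) (hG : Md G)
    (hT : ∃ i, G.T i) : HasExp G.x G.y := by
  classical
  set K := IntermediateField.adjoin ℂ (Set.range G.x) with hK
  -- the lattice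
  let L : AddSubgroup (Fin 3 → ℤ) :=
    { carrier := {m | IsAlgebraic K (∏ j, G.y j ^ m j)}
      zero_mem' := by
        simp only [Set.mem_ofPred_eq, Pi.zero_apply, zpow_zero, Finset.prod_const_one]
        exact isAlgebraic_one
      add_mem' := by
        intro a b ha hb
        simp only [Set.mem_ofPred_eq] at ha hb ⊢
        have : ∏ j, G.y j ^ (a + b) j = (∏ j, G.y j ^ a j) * ∏ j, G.y j ^ b j := by
          rw [← Finset.prod_mul_distrib]
          exact Finset.prod_congr rfl fun j _ => by rw [Pi.add_apply, zpow_add₀ (G.hy j)]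
        rw [this]
        exact ha.mul hb
      neg_mem' := by
        intro a ha
        simp only [Set.mem_ofPred_eq] at ha ⊢
        have : ∏ j, G.y j ^ (-a) j = (∏ j, G.y j ^ a j)⁻¹ := by
          rw [← Finset.prod_inv_distrib]
          exact Finset.prod_congr rfl fun j _ => by rw [Pi.neg_apply, zpow_neg]
        rw [this]
        exact ha.inv }
  have hLm : ∀ m : Fin 3 → ℤ, m ∈ L ↔ IsAlgebraic K (∏ j, G.y j ^ m j) := fun m => Iff.rfl
  have hLs : ∀ (k : ℤ) (m : Fin 3 → ℤ), k ≠ 0 → k • m ∈ L → m ∈ L := by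
    intro k m hk h
    rw [hLm] at h ⊢
    have e : ∏ j, G.y j ^ (k • m) j = (∏ j, G.y j ^ m j) ^ k := by
      rw [← Finset.prod_zpow]
      refine Finset.prod_congr rfl fun j _ => ?_
      rw [← zpow_mul, Pi.smul_apply, smul_eq_mul, mul_comm]
    rw [e] at h
    rcases Int.natAbs_eq k with h1 | h1
    · rw [h1, zpow_natCast] at h
      exact h.of_pow (by omega)
    · rw [h1, zpow_neg, zpow_natCast] at h
      exact (by simpa using h.inv : IsAlgebraic K ((∏ j, G.y j ^ m j) ^ k.natAbs)).of_pow
        (by omega)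
  have hadd : AddFree G.P := addFree_of_ne G hG.add
  by_cases hb : L = ⊥
  · obtain ⟨z, hz, -⟩ := fdense 3 E G 1 hadd (fun m hm h => hm (by
      have : m ∈ L := h
      rw [hb] at this
      simpa using this)) (by simp)
    exact ⟨z, hz⟩
  have ht : L ≠ ⊤ := by
    intro ht
    obtain ⟨i, hi⟩ := hT
    apply hi
    have h1 : (Pi.single i 1 : Fin 3 → ℤ) ∈ L := by rw [ht]; trivial
    rw [hLm] at h1
    have h2 : ∏ j, G.y j ^ (Pi.single i 1 : Fin 3 → ℤ) j = G.y i := by
      rw [Finset.prod_eq_single i]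
      · simp
      · intro j _ hj
        rw [Pi.single_eq_of_ne hj, zpow_zero]
      · intro h; exact absurd (Finset.mem_univ _) h
    rwa [h2] at h1
  obtain ⟨M, M', hMM', hM'M, hM0, hM2, hM1⟩ := hlat L hLs hb ht
  obtain ⟨G', hGP, hGx, hGy, hGT, -⟩ := (Pool.Agent.H390.FH.coord 3 M M' hMM' hM'M).1 E G
  have hback : HasExp G'.x G'.y → HasExp G.x G.y := by
    intro h
    refine hco 3 M M' hMM' hM'M E G.x G.y G.hy ?_
    have e1 : G'.x = fun i => ∑ j, ((M i j : ℤ) : E) * G.x j := funext hGx
    have e2 : G'.y = fun i => ∏ j, G.y j ^ M i j := funext hGy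
    rwa [e1, e2] at h
  apply hback
  have hG' : Md G' := md_coord hG hMM' G' hGx hGy
  have hadd' : AddFree G'.P := addFree_of_ne G' hG'.add
  have hT0 : ¬ G'.T 0 := by
    rw [hGT]
    exact not_not.2 hM0
  have hT2 : G'.T 2 := by
    rw [hGT]
    exact hM2
  have single_sum : ∀ (F : Cv 3 E) (i : Fin 3),
      ∑ j, (((Pi.single i 1 : Fin 3 → ℤ) j : ℤ) : E) * F.x j = F.x i := by
    intro F i
    rw [Finset.sum_eq_single i]
    · simp
    · intro j _ hj
      rw [Pi.single_eq_of_ne hj]
      simp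
    · intro h; exact absurd (Finset.mem_univ _) h
  have single_prod : ∀ (F : Cv 3 E) (i : Fin 3),
      ∏ j, F.y j ^ (Pi.single i 1 : Fin 3 → ℤ) j = F.y i := by
    intro F i
    rw [Finset.prod_eq_single i]
    · simp
    · intro j _ hj
      rw [Pi.single_eq_of_ne hj]
      simp
    · intro h; exact absurd (Finset.mem_univ _) h
  rcases hM1 with hM1 | hM1
  · -- rank two
    have hT1 : ¬ G'.T 1 := by
      rw [hGT]
      exact not_not.2 hM1
    by_cases hx2 : Al {G'.x 0, G'.x 1} (G'.x 2)
    · exact hr2a E G' hT0 hT1 hT2 hx2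
    · refine hr2b E G' hT0 hT1 hT2 hx2 hadd' hG'.mul ?_
      have := hG'.rot (Pi.single 0 1) (Pi.single 1 1) (by
        intro a b hab
        have h0 := congrFun hab 0
        have h1 := congrFun hab 1
        simp at h0 h1
        exact ⟨h0, h1⟩)
      rwa [single_sum, single_sum, single_prod, single_prod] at this
  · -- rank one
    have hP : ∃ m ∈ G'.P.support, 1 ≤ m 1 + m 2 := by
      by_contra hcon
      push Not at hcon
      -- P is a polynomial in X 0
      have hvars : ∀ m ∈ G'.P.support, m 1 = 0 ∧ m 2 = 0 := fun m hm => by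
        have := hcon m hm
        omega
      have hev : ∀ x x' : Fin 3 → ℂ, x 0 = x' 0 → eval x G'.P = eval x' G'.P := by
        intro x x' hxx
        rw [eval_eq', eval_eq']
        refine Finset.sum_congr rfl fun m hm => ?_
        rw [Fin.prod_univ_three, Fin.prod_univ_three, (hvars m hm).1, (hvars m hm).2, hxx]
        simp
      -- a root
      have hx0 : Transcendental ℂ (G'.x 0) := by
        intro halg
        obtain ⟨c, hc⟩ := minpoly.mem_range_of_degree_eq_one ℂ (G'.x 0)
          (IsAlgClosed.degree_eq_one_of_irreducible ℂ (minpoly.irreducible halg.isIntegral))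
        refine hG'.add (Pi.single 0 1) (by
          intro h
          have := congrFun h 0
          simp at this) c ?_
        rw [single_sum]
        exact hc.symm
      have hz : aeval G'.x G'.P = 0 := (G'.hx _).2 dvd_rfl
      -- the one variable polynomial
      let f : Polynomial ℂ := ∑ m ∈ G'.P.support, Polynomial.monomial (m 0) (coeff m G'.P)
      have hf : Polynomial.aeval (G'.x 0) f = 0 := by
        rw [← hz]
        simp only [f, map_sum, Polynomial.aeval_monomial]
        rw [aeval_def, eval₂_eq']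
        refine Finset.sum_congr rfl fun m hm => ?_
        rw [Fin.prod_univ_three, (hvars m hm).1, (hvars m hm).2]
        simp
      have hf0 : f = 0 := by
        by_contra h
        exact hx0 ⟨f, h, hf⟩
      obtain ⟨m, hm⟩ : G'.P.support.Nonempty := by
        rw [support_nonempty]
        exact G'.hP.ne_zero
      have hc : f.coeff (m 0) = coeff m G'.P := by
        simp only [f, Polynomial.finsetSum_coeff, Polynomial.coeff_monomial]
        rw [Finset.sum_eq_single m]
        · simp
        · intro m' hm' hne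
          rw [if_neg]
          intro h
          apply hne
          ext i
          fin_cases i
          · exact h
          · exact (hvars m' hm').1.trans (hvars m hm).1.symm
          · exact (hvars m' hm').2.trans (hvars m hm).2.symm
        · intro h; exact absurd hm h
      rw [hf0, Polynomial.coeff_zero] at hc
      exact (mem_support_iff.1 hm) hc.symm
    obtain ⟨N, N', d, J, γ, hNN', hN'N, hN0, hN2, hroot, hγ⟩ := hcroot G'.P hP
    obtain ⟨G₂, hG₂P, hG₂x, hG₂y, hG₂T, -⟩ := (Pool.Agent.H390.FH.coord 3 N N' hNN' hN'N).1 E G'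
    have hback₂ : HasExp G₂.x G₂.y → HasExp G'.x G'.y := by
      intro h
      refine hco 3 N N' hNN' hN'N E G'.x G'.y G'.hy ?_
      have e1 : G₂.x = fun i => ∑ j, ((N i j : ℤ) : E) * G'.x j := funext hG₂x
      have e2 : G₂.y = fun i => ∏ j, G'.y j ^ N i j := funext hG₂y
      rwa [e1, e2] at h
    apply hback₂
    have hMd₂ : Md G₂ := md_coord hG' hNN' G₂ hG₂x hG₂y
    have hN0' : ∀ j, N 0 j = (Pi.single 0 1 : Fin 3 → ℤ) j := by
      intro j
      rw [hN0]
      by_cases hj : j = 0
      · rw [hj]; simp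
      · rw [if_neg hj, Pi.single_eq_of_ne hj]
    refine hmain E G₂ d J γ ?_ ?_ (addFree_of_ne G₂ hMd₂.add) ?_ (hG₂P ▸ hroot) hγ
    · rw [hG₂T]
      have : ∏ j, G'.y j ^ N 0 j = G'.y 0 := by
        rw [← single_prod G' 0]
        exact Finset.prod_congr rfl fun j _ => by rw [hN0']
      rw [this]
      exact hT0
    · rw [hG₂T]
      intro halg
      -- the range of G'.x
      have e2 : ∏ j, G'.y j ^ N 2 j = ∏ j, G.y j ^ Matrix.vecMul (N 2) M j := by
        rw [← prod_vecMul M (N 2) G.y G.hy]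
        simp only [hGy]
      have hsub : IntermediateField.adjoin ℂ (Set.range G'.x) ≤ K := by
        rw [IntermediateField.adjoin_le_iff]
        rintro _ ⟨i, rfl⟩
        rw [hGx]
        refine sum_mem fun j _ => mul_mem (intCast_mem K (M i j)) ?_
        exact IntermediateField.subset_adjoin _ _ ⟨j, rfl⟩
      have halg' : IsAlgebraic K (∏ j, G.y j ^ Matrix.vecMul (N 2) M j) := by
        rw [← e2]
        obtain ⟨p, hp0, hp⟩ := halg
        refine ⟨p.map (IntermediateField.inclusion hsub).toRingHom, ?_, ?_⟩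
        · intro h
          apply hp0
          exact Polynomial.map_injective _ (IntermediateField.inclusion hsub).injective
            (by simpa using h)
        · rw [Polynomial.aeval_def, Polynomial.eval₂_map]
          rw [Polynomial.aeval_def] at hp
          exact hp
      obtain ⟨k, hk⟩ := hM1 _ ((hLm _).2 halg')
      -- N 2 = k • e_0
      have h3 : N 2 = k • (Pi.single 0 1 : Fin 3 → ℤ) := by
        have h4 : Matrix.vecMul (N 2) M = Matrix.vecMul (k • (Pi.single 0 1 : Fin 3 → ℤ)) M := by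
          rw [hk, Matrix.smul_vecMul]
          congr 1
          funext j
          rw [Matrix.single_one_vecMul]
          rfl
        have h5 := congrArg (fun v => Matrix.vecMul v M') h4
        simpa only [Matrix.vecMul_vecMul, hMM', Matrix.vecMul_one] using h5
      have hk0 : k = 0 := by
        have := congrFun h3 0
        rw [hN2] at this
        simpa using this.symm
      have h6 : N 2 = 0 := by rw [h3, hk0, zero_smul]
      have h7 : (N * N') 2 2 = 0 := by
        rw [Matrix.mul_apply]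
        exact Finset.sum_eq_zero fun j _ => by rw [h6]; simp
      rw [hNN'] at h7
      simp at h7
    · intro c
      have := hMd₂.mul (Pi.single 0 1) (by
        intro h
        have := congrFun h 0
        simp at this) c
      rwa [single_prod] at this

end Pool.Agent.H664.EX
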