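import Pool.Agent.H664.EX.Stm

/-!
Project EX (helper664): exponential-algebraic closedness in dimension three.
Second part of the statements (interfaces), with complete proofs in the docstrings.
-/

set_option autoImplicit false

namespace Pool.Agent.H664.EX

open MvPolynomial Filter Topology Metric Pool.Agent.W996.EC Pool.Agent.Q72.EG Pool.Agent.H664.FH

/-- there is an exponential point on the variety with generic point `(x, y)` -/
def HasExp {n : ℕ} {E : Type} [Field E] [Algebra ℂ E] (x y : Fin n → E) : Prop :=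
  ∃ z : Fin n → ℂ, Sum.elim z (fun i => Complex.exp (z i)) ∈ Pt (Sum.elim x y)

/-- JOB ZEROF. Uses S_slice, S_zero2, S_lim, S_tie. Proof.
`𝒮` = image of `N` under `e ↦ e.1 + e.2 γ`, a finite set with at least two elements (if `γ = 0`: `e.1 ≠ e'.1`; otherwise the map is injective). S_tie gives `ω`, `s₁ ≠ s₂` in `𝒮`,
then `p₁, p₂` with `‖p_i - ω‖ < 1/16`, and (continuity) `ρ > 0` with `ball p_i ρ ⊆ ball ω (1/8)` such that `Re (σ s) < Re (s_i s)` for `σ ∈ 𝒮 \ {s_i}`, `s ∈ ball p_i ρ`; by compactness `Re (σ s) ≤ Re (s_i s) - g` on `closedBall p_i (ρ/2)` with `g > 0`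
(shrink `ρ` first). `h s = max_{σ ∈ 𝒮} Re (σ s)`, bounded by `B` on `ball ω (1/8)`. S_lim (`r = 1/8`) gives `δ_L, R_L`. If `γ = 0`, S_zero2 for the `F_i = {b : (s_i, b) ∈ N}` and `c' b = c (s_i, b)` gives `Q₀` (for `i = 1, 2`); let `Q⁺ = Q ∪ Q₀ ∪ …`. S_slice for `Q⁺` gives `C`; then S_zero2
with `C`, `η = min (δ_L/4) (g/4)`, `ρ/2` gives `δ_Z, R_Z`. Let `M` be the maximum of the `e.2`, `δ > 0` smaller than `δ_Z` and `M δ < δ_L/4, g/4`, and `R` very large. With `X, V, q` from S_slice put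
`F s = ∑_{e ∈ N} q(c e)(R s) exp (e.1 R s + e.2 V(R s))` on `ball ω (1/8)` (`R s ∈ ball (R ω) (R/8)`). As `Re (e.1 R s + e.2 V(R s)) = R Re ((e.1 + e.2 γ) s) + e.2 Re (V(R s) - γ R s)`, `‖F s‖ ≤ #N R^C exp (R (h s + M δ)) ≤ exp (R (h s + δ_L))`.
Lower bounds on `closedBall p_i (ρ/2)`: the terms with `e.1 + e.2 γ ≠ s_i` contribute at most `#N R^C exp (R (h s - g + M δ))`. The others: if `γ` is irrational it is one term, `≥ R^(-C) exp (R (h s - M δ))`; if `γ = 0` they are `exp (s_i R s) ∑_{b ∈ F_i} q(c' b) exp (b V)`, and S_zero2 on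
`ball (R p_i) (ρ R/2)` gives a point with absolute value `≥ exp (R h s - η R)`. So S_lim gives a zero `s` of `F`; the point is `(X(R s), R s, V(R s))` and `q · (R s)`. (`SlAt` is monotone in `δ` and can be restricted to smaller `Q`.) -/
def S_zeroF : Prop := ∀ (K : Type) [Field K] [Algebra ℂ K] (S : Sl K)
  (P : MvPolynomial (Fin 3) ℂ) (d J : ℕ) (γ : ℂ), Irreducible P →
  aeval ![S.z, S.t, S.v] P = 0 → Root P d J γ →
  ((∀ a b : ℤ, (a : ℂ) + b * γ = 0 → a = 0 ∧ b = 0) ∨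
    (γ = 0 ∧ ∀ c : K, c ≠ 0 → ∀ j : ℤ, j ≠ 0 → S.D c ≠ j * S.D S.v * c)) →
  ∀ (N : Finset (ℕ × ℕ)) (c : ℕ × ℕ → K) (Q : Finset K), (∀ e ∈ N, c e ≠ 0 ∧ c e ∈ Q) →
  (∃ e ∈ N, ∃ e' ∈ N, e.1 ≠ e'.1) →
  ∃ (z t v : ℂ) (q : K → ℂ),
    Sum.elim ![z, t, v, Complex.exp z] (fun k : Q => q k) ∈
      Pt (Sum.elim ![S.z, S.t, S.v, S.y] (fun k : Q => (k : K))) ∧
    ∑ e ∈ N, q (c e) * Complex.exp t ^ e.1 * Complex.exp v ^ e.2 = 0

/-- JOB DEG. Uses S_ov, S_gp, and the library theorem `Pool.Agent.W337.EC.t_exp : S_exp` (Pool.Graph.R_seed8.W337.EC.Exp). Proof. `x_0 ∉ ℂ` (AddFree and `G.hx`), so it is transcendental over `ℂ`, and `y_2` is transcendental over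
`ℂ(x)`, so `x_0, y_2` are independent. `L` = the relative algebraic closure of `ℂ(x_0, y_2)` in `E` (an `IntermediateField ℂ E`, e.g. `(algebraicClosure (IntermediateField.adjoin ℂ {x_0, y_2}) E).restrictScalars ℂ`). It contains `x_2, y_0`.
`x_1` is transcendental over `L`: otherwise, as `y_2` is transcendental over `ℂ(x)`, `x_1` would be algebraic over `ℂ(x_0)` (transcendence degrees: `x_0, y_2, x_1` dependent), and then `P` would divide nonzero polynomials in `X_0, X_1` and in `X_0, X_2`, so be a polynomial in `X_0` only, and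
`x_0 ∈ ℂ`. By `G.tr1`, `y_1` is algebraic over `ℂ(x, y_2)`, so over `L(x_1)`. S_gp for `L`, `σ = Fin 4`, `ξ = ![x_0, x_2, y_0, y_2]`, `a = y_1`, `b = x_1` gives `N, c, Q`. S_ov for `z = x_0`, `θ = x_2`, `y = y_0`, `w = y_2` and `Q' = Q` together with the inverses of the `c e`
gives `(z₀, θ₀, e^{z₀}, e^{θ₀})` and `q` with `q (c e) ≠ 0` for `e ∈ N`. S_exp: `∑_{e ∈ N} q(c e) e^{e.1 B} B^{e.2} = 0` has a solution `B` (two different exponents `e.1`, the corresponding polynomials in `B` are not zero). By S_gp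
`(z₀, θ₀, e^{z₀}, e^{θ₀}, e^B, B) ∈ Pt (x_0, x_2, y_0, y_2, y_1, x_1)`; the exponential point is `(z₀, B, θ₀)`. -/
def S_deg : Prop := ∀ (E : Type) [Field E] [Algebra ℂ E] (G : Cv 3 E), G.T 2 → AddFree G.P →
  (∀ c : ℂ, G.y 0 ≠ algebraMap ℂ E c) → Al {G.x 0} (G.x 2) → Al {G.x 0} (G.y 0) →
  HasExp G.x G.y

/-- JOB MAINA. Uses S_der, S_noexp2, S_degen, S_deg, S_gp, S_zeroF. Proof. `K` = the relative algebraic closure of `ℂ(x_0, x_1)` in `E`.
(1) `P` involves `X_2`: otherwise `m 2 = 0` for all monomials `m` of `P`, so `leadAt P d J γ` has exactly one term (by `Root.ex`; `m 0 = J`, `m 1 = d`, `m 2 = 0`) and is not zero. So `x_0, x_1` are algebraically independent (a polynomial relation would be divisible by `P`) and `x_2 ∈ K`; `K` is also the relative algebraic closure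
of `ℂ(x)`; `y_0 ∈ K` by `¬ G.T 0`. (2) `S : Sl K` with `z = x_0`, `t = x_1`, `v = x_2`, `y = y_0`, `D` from S_der (all elements of `K` are algebraic over `ℂ(z, t)`: transfer from `E` to `K`). (3) If `D z = D v = 0`: S_degen gives that `x_2`, `y_0` are algebraic over `ℂ(x_0)`, use S_deg. Otherwise S_noexp2 (the hypothesis on
`m₁ z + m₂ v` from AddFree with `m = (m₁, 0, m₂)` and `G.hx`). (4) S_gp with `L = K`, `σ = Fin 4`, `ξ = ![x_0, x_1, x_2, y_0]`, `a = y_1`, `b = y_2` (transcendental over `K` by `G.T 2`; `y_1` algebraic over `ℂ(x, y_2)` by `G.tr1`): `N, c, Q`. S_zeroF gives `z, t, v, q`, and the last property of S_gp with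
`A = e^t`, `B = e^v` says that `(z, t, v, e^z, e^t, e^v) ∈ Pt (x_0, x_1, x_2, y_0, y_1, y_2)`: the exponential point is `(z, t, v)`. -/
def S_mainA : Prop := ∀ (E : Type) [Field E] [Algebra ℂ E] (G : Cv 3 E) (d J : ℕ) (γ : ℂ),
  ¬ G.T 0 → G.T 2 → AddFree G.P → (∀ c : ℂ, G.y 0 ≠ algebraMap ℂ E c) → Root G.P d J γ →
  (γ = 0 ∨ ∀ a b : ℤ, (a : ℂ) + b * γ = 0 → a = 0 ∧ b = 0) → HasExp G.x G.y

/-- JOB R2A. Uses S_bm with `m = 2`. Proof. `x_0, x_1` are algebraically independent over `ℂ`: otherwise all `x_i` are algebraic over a field `ℂ(x_j)` (or `ℂ`), but as `P(x) = 0` is the only relation (`G.hx`) two of the `x_i` are independent. `K` = the relative algebraic closure of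
`ℂ(x_0, x_1)` in `E`, it contains `x_2, y_0, y_1`. S_bm for `K`, `ζ = ![x_0, x_1]`, `y = ![y_0, y_1]`, `Q = {x_2}` gives `z_0, z_1` and `z_2 = q x_2` with `(z_0, z_1, z_2, e^{z_0}, e^{z_1}) ∈ Pt (x_0, x_1, x_2, y_0, y_1)`. As `y_2` is transcendental over `K`, the coefficients (w.r.t. `y_2`) of a relation between `x, y` are relations between
`x, y_0, y_1`; so `(z_0, z_1, z_2, e^{z_0}, e^{z_1}, e^{z_2}) ∈ Pt (x, y)`. -/
def S_r2a : Prop := ∀ (E : Type) [Field E] [Algebra ℂ E] (G : Cv 3 E), ¬ G.T 0 → ¬ G.T 1 →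
  G.T 2 → Al {G.x 0, G.x 1} (G.x 2) → HasExp G.x G.y

/-- JOB CURVE2. Uses S_ov and S_fdense (below), `S_lift0` (library, `Pool.Agent.Q72.EG.all_lift` or similar). Proof. `x_0 ∉ ℂ` by AddFree, so transcendental. `x_1` is algebraic over `ℂ(x_0)` (`P` is not a polynomial in `X_0` only).
(i) If all monomials `y^m`, `m ≠ 0`, are transcendental over `ℂ(x)`: S_lift0 (or S_alg) gives `H` with `H(x, y) ≠ 0` such that points of `Pt (x, y)` with `H ≠ 0` lift to points of `Pt (x, y, Q)`. S_fdense.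
(ii) Otherwise `y^m` is algebraic over `ℂ(x)` for some `m ≠ 0`; dividing `m` by the gcd of its entries, `m` is primitive (if `f^k` is algebraic so is `f`). Choose `M ∈ GL_2(ℤ)` with first row `m`, `M'` its inverse, `x' = M x`, `y' = y^M`. `x'_0 ∉ ℂ`, `y'_0 ∉ ℂ` by the hypotheses; `x'_1`, `y'_0` are algebraic over `ℂ(x'_0)`
(`ℂ(x') = ℂ(x)` has transcendence degree one). `y'_1` is transcendental over `ℂ(x)`: otherwise all `y_i` would be algebraic. S_ov for `z = x'_0`, `θ = x'_1`, `y = y'_0`, `w = y'_1` and `Q' = Q ∪ {x_0, x_1, y_0, y_1}` gives `(z₀, θ₀, q)` (all elements of `Q'` are algebraic over `ℂ(x'_0, y'_1)`). As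
`x = M' x'`, the values are `q x_i = ∑ M'_{ij} z'_j`, and `y_i = ∏ y'_j^{M'_{ij}}` gives `q y_i = exp (q x_i)` (a polynomial relation after multiplication with powers of the `y'_j`, whose values are not zero). -/
def S_curve2 : Prop := ∀ (F : Type) [Field F] [Algebra ℂ F] (G : Cv 2 F) (Q : Finset F),
  AddFree G.P → (∀ m : Fin 2 → ℤ, m ≠ 0 → ∀ c : ℂ, ∏ j, G.y j ^ m j ≠ algebraMap ℂ F c) →
  (∃ i, G.T i) → (∀ k ∈ Q, Al (Set.range (Sum.elim G.x G.y)) k) →
  ∃ (z : Fin 2 → ℂ) (q : F → ℂ),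
    Sum.elim (Sum.elim z (fun i => Complex.exp (z i))) (fun k : Q => q k) ∈
      Pt (Sum.elim (Sum.elim G.x G.y) (fun k : Q => (k : F)))

/-- (proved by helper664, from `all_dich` and `coreB`) -/
def S_fdense : Prop := ∀ (n : ℕ) (E : Type) [Field E] [Algebra ℂ E] (G : Cv n E)
  (H : MvPolynomial (Fin n ⊕ Fin n) ℂ), AddFree G.P →
  (∀ m : Fin n → ℤ, m ≠ 0 →
    Transcendental (IntermediateField.adjoin ℂ (Set.range G.x)) (∏ j, G.y j ^ m j)) →
  aeval (Sum.elim G.x G.y) H ≠ 0 →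
  ∃ z : Fin n → ℂ, Sum.elim z (fun l => Complex.exp (z l)) ∈ Pt (Sum.elim G.x G.y) ∧
    eval (Sum.elim z (fun l => Complex.exp (z l))) H ≠ 0

/-- JOB R2B. Uses S_curve2. Proof. `x_0 ∉ ℂ` (AddFree), so `x_0` is transcendental over `ℂ`. `x_1` is algebraic over `ℂ(x_0)`: otherwise `x_2` would be algebraic over `ℂ(x_0, x_1)` (there is the relation `P`, which would involve `X_2`). So there is a polynomial relation between `x_0, x_1`, it is divisible by `P`, so `P`
is a polynomial `P₂(X_0, X_1)`, irreducible, AddFree. `F` = the relative algebraic closure of `ℂ(x_0, x_1, y_0, y_1)` in `E`. It is contained in the relative algebraic closure of `ℂ(x)`, which has transcendence degree `2`, and it has transcendence degree at least `2` by the hypothesis `hrot` (`x_0` is transcendental, and one of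
`y_0, y_1` is not algebraic over `ℂ(x_0)`; this is also `∃ i, T i` for the curve below). So `x_2 ∈ F`. Let `G₂ : Cv 2 F` be given by `P₂`, `![x_0, x_1]`, `![y_0, y_1]` (`Tr1`: `F` has transcendence degree one over `ℂ(x_0, x_1)`). S_curve2 with `Q = {x_2}` gives `(z_0, z_1)` and `z_2 = q x_2` with
`(z_0, z_1, z_2, e^{z_0}, e^{z_1}) ∈ Pt (x_0, x_1, x_2, y_0, y_1)`. As `y_2` is transcendental over `ℂ(x)`, hence over `F`, `(z_0, z_1, z_2, e^{z_0}, e^{z_1}, e^{z_2}) ∈ Pt (x, y)` as in S_r2a. -/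
def S_r2b : Prop := ∀ (E : Type) [Field E] [Algebra ℂ E] (G : Cv 3 E), ¬ G.T 0 → ¬ G.T 1 →
  G.T 2 → ¬ Al {G.x 0, G.x 1} (G.x 2) → AddFree G.P →
  (∀ m : Fin 3 → ℤ, m ≠ 0 → ∀ c : ℂ, ∏ j, G.y j ^ m j ≠ algebraMap ℂ E c) →
  ¬ (Al {G.x 0} (G.x 1) ∧ Al {G.x 0} (G.y 0) ∧ Al {G.x 0} (G.y 1)) → HasExp G.x G.y

/-- JOB LAT. Proof. By the Smith normal form of `L` (`Submodule.smithNormalForm`; see the proof of `Pool.Agent.H390.FH.latt` in Pool/Agent/H390/FH/Latt.lean, which does almost this) there is a basis `b` of `ℤ^3` such that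
`L` is spanned by the `b_i`, `i ∈ I` (as `L` is saturated). `I` is not empty and not everything; order the basis such that `I = {0}` or `I = {0, 1}`. `M` = the matrix with the rows `b_i`. -/
def S_lat : Prop := ∀ L : AddSubgroup (Fin 3 → ℤ),
  (∀ (k : ℤ) (m : Fin 3 → ℤ), k ≠ 0 → k • m ∈ L → m ∈ L) → L ≠ ⊥ → L ≠ ⊤ →
  ∃ M M' : Matrix (Fin 3) (Fin 3) ℤ, M * M' = 1 ∧ M' * M = 1 ∧ M 0 ∈ L ∧ M 2 ∉ L ∧
    (M 1 ∈ L ∨ ∀ m ∈ L, ∃ k : ℤ, m = k • M 0)

/-- JOB CROOT. Proof. `d` = the maximum of `m 1 + m 2` for the exponents `m` of `P`, `d ≥ 1` by hypothesis, `J` = the maximum of `m 0` for the exponents with `m 1 + m 2 = d`, `L(t, v) = ∑_{m 1 + m 2 = d, m 0 = J} coeff m P t^(m 1) v^(m 2)`, a nonzero binary form of degree `d`.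
`subM M' P` is `P(M' x)`; for `M' = diag(1, N)`, `N ∈ GL_2(ℤ)`, it has the same `d`, `J` and the binary form `L(N (t, v))` (the homogeneous components with respect to `(t, v)` are transformed separately). If `L(1, ·)` has a root `γ` which is `0` or irrational (in the sense of the last condition) let `M = 1`. Otherwise `L(1, ·)` has a rational root
`p / q`, or it is a nonzero constant, so `L = c t^d` and `L(0, 1) = 0`. In both cases `L(q, p) = 0` for coprime integers `q, p`; let `N` have the first column `(q, p)` and determinant `1` (Bezout), `γ = 0`, `M = diag(1, N⁻¹)`. -/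
def S_croot : Prop := ∀ P : MvPolynomial (Fin 3) ℂ, (∃ m ∈ P.support, 1 ≤ m 1 + m 2) →
  ∃ (M M' : Matrix (Fin 3) (Fin 3) ℤ) (d J : ℕ) (γ : ℂ), M * M' = 1 ∧ M' * M = 1 ∧
    (∀ j, M 0 j = if j = 0 then 1 else 0) ∧ M 2 0 = 0 ∧ Root (subM M' P) d J γ ∧
    (γ = 0 ∨ ∀ a b : ℤ, (a : ℂ) + b * γ = 0 → a = 0 ∧ b = 0)

/-- JOB COORDE. Proof. Let `z'` be the exponential point for `x' = M x`, `y' = y^M`, put `z = M' z'`. For a relation `g(x, y) = 0`, `(∏ Y'_i)^N g(M' X', Y'^{M'})` is a polynomial relation between `x', y'` for `N` large, so it vanishes at `(z', e^{z'})`; as `e^{z} = (e^{z'})^{M'}`, `g(z, e^z) = 0`.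
(See `Pool.Agent.Q239.EG.pt_of_frac` and the proof of `Pool.Agent.H390.FH.coord`, Pool/Agent/H390/FH/Coord.lean, first part, which is almost the same.) -/
def S_coordE : Prop := ∀ (n : ℕ) (M M' : Matrix (Fin n) (Fin n) ℤ), M * M' = 1 → M' * M = 1 →
  ∀ (E : Type) [Field E] [Algebra ℂ E] (x y : Fin n → E), (∀ i, y i ≠ 0) →
  HasExp (fun i => ∑ j, ((M i j : ℤ) : E) * x j) (fun i => ∏ j, y j ^ M i j) → HasExp x y

/-! ### Varieties -/

/-- the action of integral matrices -/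
noncomputable def act {n : ℕ} (M : Matrix (Fin n) (Fin n) ℤ) (p : Fin n ⊕ Fin n → ℂ) :
    Fin n ⊕ Fin n → ℂ :=
  Sum.elim (fun i => ∑ j, (M i j : ℂ) * p (Sum.inl j)) (fun i => ∏ j, p (Sum.inr j) ^ M i j)

/-- `dim M V ≥ rank M` for all integral matrices -/
def Rotund {n : ℕ} (V : Set (Fin n ⊕ Fin n → ℂ)) : Prop :=
  ∀ M : Matrix (Fin n) (Fin n) ℤ, ∃ J : Finset (Fin n ⊕ Fin n),
    J.card = (M.map (Int.cast : ℤ → ℚ)).rank ∧ IndepV (act M '' V) J

/-- JOB PROJ. The projection of a variety whose dimension is two is a surface `P = 0`. Proof. `𝔭` = the set of all `f ∈ ℂ[X_0, X_1, X_2]` which vanish on `V` (as functions of `x`) is a prime ideal (`I` is prime and contains all polynomials vanishing on `V`: `nullst` / `vanishing` lemmas in Pool.Agent.W333.ECV.A and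
Q98/EG/FLD.lean), not zero. Let `P ∈ 𝔭` be irreducible (a factor of a nonzero element). Let `k` be the third index; `𝔭` contains no nonzero polynomial in `X_i, X_j`. If `f ∈ 𝔭` is not divisible by `P` then, as `P` involves `X_k`, `f` and `P` are coprime in `ℂ(X_i, X_j)[X_k]` (Gauss), so there is a nonzero element
`α f + β P` of `𝔭` in `ℂ[X_i, X_j]`: contradiction. (For general facts of this type see `S_gp`.) -/
def S_proj : Prop := ∀ (I : Ideal (MvPolynomial (Fin 3 ⊕ Fin 3) ℂ))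
  (V : Set (Fin 3 ⊕ Fin 3 → ℂ)), IsVar I V →
  ¬ IndepV V {Sum.inl 0, Sum.inl 1, Sum.inl 2} →
  (∃ i j : Fin 3, i ≠ j ∧ IndepV V {Sum.inl i, Sum.inl j}) →
  ∃ P : MvPolynomial (Fin 3) ℂ, ProjEq V P

/-- JOB DOM. The case of a dominant projection. Uses S_bm. Proof. `E` = field of fractions of the coordinate ring, `x, y` the classes of the coordinates (as in the proof of S_fld, Q98/EG/FLD.lean; `exists_field` in Pool.Agent.W333.ECV.A). The `x_i` are algebraically independent, and as `dim V = n` the `y_i` are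
algebraic over `ℂ(x)` (for every `i` the `n + 1` coordinates `x, y_i` are dependent). S_bm with `m = n`, `K = E`, `ζ = x`, `Q = ∅` gives a point of `Pt (x, y)` of the form `(z, e^z)`; it is in `V`, the set of points of `Pt` with nonzero `y`-coordinates. -/
def S_dom : Prop := ∀ (n : ℕ) (I : Ideal (MvPolynomial (Fin n ⊕ Fin n) ℂ))
  (V : Set (Fin n ⊕ Fin n → ℂ)), IsVar I V → HasDimV V n →
  IndepV V (Finset.univ.image Sum.inl) →
  ∃ z : Fin n → ℂ, Sum.elim z (fun l => Complex.exp (z l)) ∈ V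

/-- JOB ROT. Rotundity and freeness in the function field. Proof. Let `m₀, m₁` be independent, `M` the matrix with the rows `m₀, m₁, 0`, of rank `2`, so there is `J` with two elements such that the coordinates in `J` are independent on `act M '' V`. The coordinates of `act M p` are
`m₀·x, m₁·x, 0, y^{m₀}, y^{m₁}, 1`, so `J` consists of two of the first, second, fourth and fifth. If the three functions were algebraic over `ℂ(m₀·x)` then the two functions of `J` would satisfy a nonzero polynomial relation `f` over `ℂ` in `E`, `f(…) = 0`, and then `f` vanishes on `act M '' V`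
(multiply with a monomial in `y` and use `hE`). -/
def S_rot : Prop := ∀ (I : Ideal (MvPolynomial (Fin 3 ⊕ Fin 3) ℂ))
  (V : Set (Fin 3 ⊕ Fin 3 → ℂ)) (E : Type) [Field E] [Algebra ℂ E] (x y : Fin 3 → E),
  IsVar I V → Rotund V → (∀ f, aeval (Sum.elim x y) f = 0 ↔ ∀ p ∈ V, eval p f = 0) →
  (∀ i, y i ≠ 0) →
  ∀ m₀ m₁ : Fin 3 → ℤ, (∀ a b : ℤ, a • m₀ + b • m₁ = 0 → a = 0 ∧ b = 0) →
    ¬ (Al {∑ j, ((m₀ j : ℤ) : E) * x j} (∑ j, ((m₁ j : ℤ) : E) * x j) ∧
      Al {∑ j, ((m₀ j : ℤ) : E) * x j} (∏ j, y j ^ m₀ j) ∧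
      Al {∑ j, ((m₀ j : ℤ) : E) * x j} (∏ j, y j ^ m₁ j))

/-- JOB ROTTR. Proof. `act M (c p) = (act M c) (act M p)` (translation by `act M c`), so if `f` vanishes on `act M '' (Trs c V)` then `f (T ·)` vanishes on `act M '' V`, where `T` is the translation (additive in the `x`-coordinates, multiplicative with nonzero factors in the `y`-coordinates), a
polynomial in the same variables (`vars_bind₁`; see `indep_trs` or `hasDim_trs` in Q72/EG/Tr.lean: `IndepV` for translates). -/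
def S_rottr : Prop := ∀ (n : ℕ) (V : Set (Fin n ⊕ Fin n → ℂ)) (c : Fin n ⊕ Fin n → ℂ),
  (∀ i, c (Sum.inr i) ≠ 0) → Rotund V → Rotund (Pool.Agent.Y563.SE.Trs c V)

end Pool.Agent.H664.EX
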