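import Pool.Agent.H664.EX.AsmR2
import Pool.Graph.R_pool_sql_team_seeded_3997aac3.Q72.MX.All

/-! Project EX (helper664): varieties. -/

set_option autoImplicit false

namespace Pool.Agent.H664.EX

open MvPolynomial Filter Topology Metric Pool.Agent.W996.EC Pool.Agent.Q72.EG Pool.Agent.H664.FH

/-- all free rotund varieties of dimension three contain exponential points -/
theorem v3 (hlat : S_lat) (hcroot : S_croot) (hco : S_coordE) (hmain : S_mainA) (hr2a : S_r2a)
    (hr2b : S_r2b) (hproj : S_proj) (hdom : S_dom) (hrt : S_rot)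
    (I : Ideal (MvPolynomial (Fin 3 ⊕ Fin 3) ℂ)) (V : Set (Fin 3 ⊕ Fin 3 → ℂ))
    (hV : IsVar I V) (hdim : HasDimV V 3)
    (hadd : ∀ m : Fin 3 → ℤ, m ≠ 0 → ∀ c : ℂ, ∃ p ∈ V,
      (∑ j : Fin 3, (m j : ℂ) * p (Sum.inl j)) ≠ c)
    (hmul : ∀ m : Fin 3 → ℤ, m ≠ 0 → ∀ c : ℂ, ∃ p ∈ V,
      (∏ j : Fin 3, p (Sum.inr j) ^ (m j)) ≠ c) (hrot : Rotund V) :
    ∃ z : Fin 3 → ℂ, Sum.elim z (fun l => Complex.exp (z l)) ∈ V := by
  classical
  by_cases h1 : IndepV V {Sum.inl 0, Sum.inl 1, Sum.inl 2}
  · refine hdom 3 I V hV hdim ?_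
    have : (Finset.univ.image Sum.inl : Finset (Fin 3 ⊕ Fin 3)) =
        {Sum.inl 0, Sum.inl 1, Sum.inl 2} := by decide
    rw [this]
    exact h1
  by_cases h2 : ∃ i j : Fin 3, i ≠ j ∧ IndepV V {Sum.inl i, Sum.inl j}
  · obtain ⟨P, hP⟩ := hproj I V hV h1 h2
    obtain ⟨E, iE, aE, x, y, hxy, hpt, hx, hy, htr, hT, -⟩ :=
      Pool.Agent.Q98.EG.fld 3 I V P hV hdim hP
    let G : Cv 3 E := ⟨P, hP.1, x, y, hx, hy, htr⟩
    have hMd : Md G := by
      refine ⟨fun m hm c he => ?_, fun m hm c he => ?_, hrt I V E x y hV hrot hxy hy⟩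
      · obtain ⟨p, hp, hne⟩ := hadd m hm c
        apply hne
        have h3 : aeval (Sum.elim x y) (∑ j, C ((m j : ℤ) : ℂ) * X (Sum.inl j) - C c :
            MvPolynomial (Fin 3 ⊕ Fin 3) ℂ) = 0 := by
          simp only [map_sub, map_sum, map_mul, aeval_C, aeval_X, Sum.elim_inl]
          rw [← he]
          simp [G]
        have h4 := (hxy _).1 h3 p hp
        simp only [map_sub, map_sum, map_mul, eval_C, eval_X] at h4
        exact sub_eq_zero.1 h4
      · obtain ⟨p, hp, hne⟩ := hmul m hm c
        apply hne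
        -- split the exponents
        have hp0 : ∀ j, p (Sum.inr j) ≠ 0 := fun j => ((hpt p).1 hp).2 j
        have key : ∀ {F : Type} [Field F] (w : Fin 3 → F) (a : F), (∀ j, w j ≠ 0) →
            (∏ j, w j ^ m j = a ↔ ∏ j, w j ^ (m j).toNat = a * ∏ j, w j ^ (-m j).toNat) := by
          intro F _ w a hw
          have h5 : ∏ j, w j ^ m j = (∏ j, w j ^ (m j).toNat) / ∏ j, w j ^ (-m j).toNat := by
            rw [← Finset.prod_div_distrib]
            refine Finset.prod_congr rfl fun j _ => ?_
            have : m j = ((m j).toNat : ℤ) - ((-m j).toNat : ℤ) := by omega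
            conv_lhs => rw [this, zpow_sub₀ (hw j), zpow_natCast, zpow_natCast]
          rw [h5, div_eq_iff (Finset.prod_ne_zero_iff.2 fun j _ => pow_ne_zero _ (hw j))]
        have h3 : aeval (Sum.elim x y) (∏ j, X (Sum.inr j) ^ (m j).toNat -
            C c * ∏ j, X (Sum.inr j) ^ (-m j).toNat : MvPolynomial (Fin 3 ⊕ Fin 3) ℂ) = 0 := by
          simp only [map_sub, map_prod, map_mul, map_pow, aeval_C, aeval_X, Sum.elim_inr]
          rw [sub_eq_zero]
          exact (key y _ hy).1 he
        have h4 := (hxy _).1 h3 p hp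
        simp only [map_sub, map_prod, map_mul, map_pow, eval_C, eval_X] at h4
        exact (key _ _ hp0).2 (sub_eq_zero.1 h4)
    obtain ⟨z, hz⟩ := r2 hlat hcroot hco hmain hr2a hr2b G hMd hT
    exact ⟨z, (hpt _).2 ⟨hz, fun j => Complex.exp_ne_zero _⟩⟩
  · -- curves
    push Not at h2
    obtain ⟨z, hz, -⟩ := Pool.Agent.Q72.MX.all_VM 3 I V hV.prime hV.points hadd hmul (by
        obtain ⟨⟨J0, hJ0, hJ0i⟩, -⟩ := hdim
        exact ⟨J0, hJ0.ge, hJ0i⟩) ∅ (by
        intro i j
        have e : ∀ k : Fin 3, Pool.Agent.Q72.MX.bs (∅ : Finset (Fin 3)) k = Sum.inl k := by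
          intro k
          simp [Pool.Agent.Q72.MX.bs]
        simp only [e]
        by_cases hij : i = j
        · refine ⟨X 0 - X 1, ?_, fun p _ => ?_⟩
          · intro h0
            have := congrArg (eval ![(1 : ℂ), 0]) h0
            simp at this
          · simp [hij]
        · have h3 := h2 i j hij
          unfold IndepV at h3
          push Not at h3
          obtain ⟨f, hf1, hf2, hf3⟩ := h3
          -- rename
          let ι : Fin 3 ⊕ Fin 3 → MvPolynomial (Fin 2) ℂ := fun k =>
            if k = Sum.inl i then X 0 else if k = Sum.inl j then X 1 else 0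
          refine ⟨bind₁ ι f, ?_, fun p hp => ?_⟩
          · intro h0
            apply hf3
            -- inverse renaming
            have h4 : rename (![Sum.inl i, Sum.inl j] : Fin 2 → Fin 3 ⊕ Fin 3) (bind₁ ι f) = f := by
              have h5 : ∀ k ∈ f.vars,
                  rename (![Sum.inl i, Sum.inl j] : Fin 2 → Fin 3 ⊕ Fin 3) (ι k) = X k := by
                intro k hk
                have := hf1 hk
                simp only [Finset.mem_insert, Finset.mem_singleton] at this
                rcases this with rfl | rfl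
                · simp [ι]
                · have : (Sum.inl j : Fin 3 ⊕ Fin 3) ≠ Sum.inl i := by
                    intro h; exact hij (Sum.inl.inj h).symm
                  simp [ι, this]
              have h6 : (rename (![Sum.inl i, Sum.inl j] : Fin 2 → Fin 3 ⊕ Fin 3) :
                  MvPolynomial (Fin 2) ℂ →ₐ[ℂ] _) (bind₁ ι f) =
                  bind₁ (fun k => rename (![Sum.inl i, Sum.inl j] : Fin 2 → Fin 3 ⊕ Fin 3) (ι k)) f := by
                rw [rename_bind₁]
              rw [h6]
              have h8 : f = bind₁ X f := by rw [bind₁_X_left]; rfl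
              conv_rhs => rw [h8]
              refine eval₂Hom_congr' rfl ?_ rfl
              intro k hk _
              exact h5 k hk
            rw [← h4, h0, map_zero]
          · have h7 : eval ![p (Sum.inl i), p (Sum.inl j)] (bind₁ ι f) = eval p f := by
              rw [← MvPolynomial.coe_aeval_eq_eval, ← MvPolynomial.coe_aeval_eq_eval]
              simp only [RingHom.coe_coe]
              rw [aeval_bind₁]
              rw [aeval_def, aeval_def]
              refine eval₂Hom_congr' (f₁ := algebraMap ℂ ℂ) (f₂ := algebraMap ℂ ℂ) rfl ?_ rfl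
              intro k hk _
              have := hf1 hk
              simp only [Finset.mem_insert, Finset.mem_singleton] at this
              rcases this with rfl | rfl
              · simp [ι]
              · have : (Sum.inl j : Fin 3 ⊕ Fin 3) ≠ Sum.inl i := by
                  intro h; exact hij (Sum.inl.inj h).symm
                simp [ι, this]
            rw [h7]
            exact hf2 p hp) 1 (by
        obtain ⟨p, hp⟩ := hV.nonempty
        exact ⟨p, hp, by simp⟩)
    refine ⟨z, ?_⟩
    rw [hV.points]
    exact ⟨hz, fun j => Complex.exp_ne_zero _⟩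

end Pool.Agent.H664.EX
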